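import Pool.Agent.H446.AP10.Dat

/-!
# Coordinates for a finitely generated field
-/

set_option autoImplicit false

namespace Pool.Agent.H446.AP10

open Finset MvPolynomial

variable {m : ℕ} {K : Type*} [Field K]

/-- A transcendence basis among the coordinates. -/
lemma exists_y [CharZero K] (x : Fin m → K) : ∃ (d : ℕ) (y : Fin d → Fin m), Function.Injective y ∧
    AlgebraicIndependent ℤ (x ∘ y) ∧ ∀ i, IsAlgebraic (Algebra.adjoin ℤ (Set.range (x ∘ y))) (x i) := by
  have hne : {s : Set (Fin m) | AlgebraicIndepOn ℤ x s}.Nonempty := by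
    refine ⟨∅, ?_⟩
    show AlgebraicIndependent ℤ fun i : (∅ : Set (Fin m)) => x i
    rw [algebraicIndependent_empty_type_iff]
    exact (algebraMap ℤ K).injective_int
  obtain ⟨s, hs⟩ := (Set.toFinite {s : Set (Fin m) | AlgebraicIndepOn ℤ x s}).exists_maximal hne
  have hind : AlgebraicIndepOn ℤ x s := hs.1
  let e := Finite.equivFin s
  have hr : Set.range (x ∘ fun k => ((e.symm k : s) : Fin m)) = x '' s := by
    ext z
    constructor
    · rintro ⟨k, rfl⟩
      exact ⟨_, (e.symm k).2, rfl⟩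
    · rintro ⟨i, hi, rfl⟩
      refine ⟨e ⟨i, hi⟩, ?_⟩
      show x ((e.symm (e ⟨i, hi⟩) : s) : Fin m) = x i
      rw [Equiv.symm_apply_apply]
  refine ⟨Nat.card s, fun k => ((e.symm k : s) : Fin m), fun a b h => e.symm.injective (Subtype.ext h),
    AlgebraicIndependent.comp hind _ e.symm.injective, fun i => ?_⟩
  rw [hr]
  by_cases hi : i ∈ s
  · exact isAlgebraic_algebraMap (⟨x i, Algebra.subset_adjoin ⟨i, hi, rfl⟩⟩ : Algebra.adjoin ℤ (x '' s))
  · by_contra h
    have h1 : AlgebraicIndepOn ℤ x (insert i s) := (AlgebraicIndepOn.insert_iff hi).2 ⟨hind, h⟩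
    exact hi (hs.2 h1 (Set.subset_insert i s) (Set.mem_insert i s))

/-- Elements of the field generated by `t`. -/
lemma exists_quot {d : ℕ} {t : Fin d → K} {c : K} (hc : c ∈ Subfield.closure (Set.range t)) :
    ∃ a b : MvPolynomial (Fin d) ℤ, aeval t b ≠ 0 ∧ aeval t b * c = aeval t a := by
  have hcl : ∀ z ∈ Subring.closure (Set.range t), ∃ f : MvPolynomial (Fin d) ℤ, aeval t f = z := by
    intro z hz
    have h1 : Subring.closure (Set.range t) ≤ (aeval (R := ℤ) t : MvPolynomial (Fin d) ℤ →ₐ[ℤ] K).toRingHom.range := by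
      rw [Subring.closure_le]
      rintro _ ⟨i, rfl⟩
      exact ⟨X i, aeval_X _ _⟩
    obtain ⟨f, hf⟩ := h1 hz
    exact ⟨f, hf⟩
  rw [Subfield.mem_closure_iff] at hc
  obtain ⟨u, hu, v, hv, rfl⟩ := hc
  obtain ⟨a, rfl⟩ := hcl u hu
  obtain ⟨b, rfl⟩ := hcl v hv
  by_cases h : aeval t b = 0
  · refine ⟨0, 1, by rw [map_one]; exact one_ne_zero, ?_⟩
    rw [h, div_zero, mul_zero, map_zero]
  · exact ⟨a, b, h, by rw [mul_div_cancel₀ _ h]⟩

lemma aeval_mem_closure {d : ℕ} (t : Fin d → K) (f : MvPolynomial (Fin d) ℤ) :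
    aeval t f ∈ Subfield.closure (Set.range t) := by
  induction f using MvPolynomial.induction_on with
  | C a =>
    rw [aeval_C, eq_intCast]
    exact intCast_mem _ _
  | add f g hf hg =>
    rw [map_add]
    exact add_mem hf hg
  | mul_X f i hf =>
    rw [map_mul, aeval_X]
    exact mul_mem hf (Subfield.subset_closure ⟨i, rfl⟩)

/-- A common denominator. -/
lemma exists_denom {d : ℕ} {t : Fin d → K} {ι : Type*} (s : Finset ι) (c : ι → K)
    (hc : ∀ i ∈ s, c i ∈ Subfield.closure (Set.range t)) :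
    ∃ g : MvPolynomial (Fin d) ℤ, aeval t g ≠ 0 ∧ ∀ i ∈ s, ∃ a : MvPolynomial (Fin d) ℤ, aeval t g * c i = aeval t a := by
  classical
  induction s using Finset.induction_on with
  | empty => exact ⟨1, by rw [map_one]; exact one_ne_zero, fun i hi => absurd hi (notMem_empty i)⟩
  | insert i s hi ih =>
    obtain ⟨g, hg, hs⟩ := ih fun j hj => hc j (mem_insert_of_mem hj)
    obtain ⟨a, b, hb, hab⟩ := exists_quot (hc i (mem_insert_self _ _))
    refine ⟨g * b, by rw [map_mul]; exact mul_ne_zero hg hb, fun j hj => ?_⟩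
    rcases mem_insert.1 hj with rfl | hj
    · refine ⟨g * a, ?_⟩
      rw [map_mul, map_mul, mul_assoc, hab]
    · obtain ⟨a', ha'⟩ := hs j hj
      refine ⟨b * a', ?_⟩
      rw [map_mul, map_mul, ← ha']
      ring

lemma mo_add (x : Fin m → K) (a b : Fin m →₀ ℕ) : mo x (a + b) = mo x a * mo x b := by
  unfold mo
  simp only [Finsupp.add_apply, pow_add, Finset.prod_mul_distrib]

lemma mo_single (x : Fin m → K) (i : Fin m) : mo x (Finsupp.single i 1) = x i := by
  classical
  unfold mo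
  rw [Finset.prod_eq_single i]
  · rw [Finsupp.single_eq_same, pow_one]
  · intro j _ hj
    rw [Finsupp.single_eq_of_ne hj, pow_zero]
  · intro h; exact absurd (mem_univ i) h

lemma mo_zero (x : Fin m → K) : mo x 0 = 1 := by
  unfold mo
  simp

/-- **The coordinates.** -/
theorem exists_dat [CharZero K] (x : Fin m → K) : ∃ A : Dat m, aeval (x ∘ A.y) A.g ≠ 0 ∧ A.On x ∧
    ∀ v : Fin A.n → MvPolynomial (Fin A.d) ℤ, v ≠ 0 → A.ev x v ≠ 0 := by
  classical
  obtain ⟨d, y, hy, hind, halg⟩ := exists_y x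
  let F₀ : Subfield K := Subfield.closure (Set.range (x ∘ y))
  have hle : ∀ z ∈ Algebra.adjoin ℤ (Set.range (x ∘ y)), z ∈ F₀ := by
    intro z hz
    have h1 : Algebra.adjoin ℤ (Set.range (x ∘ y)) ≤ (subalgebraOfSubring F₀.toSubring) := by
      rw [Algebra.adjoin_le_iff]
      exact Subfield.subset_closure
    exact h1 hz
  have hint : ∀ i, IsIntegral F₀ (x i) := by
    intro i
    obtain ⟨P, hP0, hP⟩ := halg i
    let φ : Algebra.adjoin ℤ (Set.range (x ∘ y)) →+* F₀ :=
      { toFun := fun z => ⟨z, hle z z.2⟩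
        map_one' := rfl
        map_mul' := fun _ _ => rfl
        map_zero' := rfl
        map_add' := fun _ _ => rfl }
    have hφ : Function.Injective φ := fun a b h => Subtype.ext (congrArg (fun z : F₀ => (z : K)) h)
    have h1 : IsAlgebraic F₀ (x i) := by
      refine ⟨P.map φ, (Polynomial.map_ne_zero_iff hφ).2 hP0, ?_⟩
      rw [Polynomial.aeval_def, Polynomial.eval₂_map]
      rw [Polynomial.aeval_def] at hP
      exact hP
    exact h1.isIntegral
  -- monomials
  have h0 : LinearIndepOn F₀ (mo x) ({0} : Set (Fin m →₀ ℕ)) := by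
    rw [linearIndepOn_singleton_iff, mo_zero]
    exact one_ne_zero
  obtain ⟨b, -, hb0, hspan, hlin⟩ := exists_linearIndepOn_extension h0 (Set.subset_univ _)
  have h0b : (0 : Fin m →₀ ℕ) ∈ b := hb0 rfl
  let W : Submodule F₀ K := Subalgebra.toSubmodule (Algebra.adjoin F₀ (Set.range x))
  have hW : W.FG := fg_adjoin_of_finite (Set.finite_range x) (by
    rintro _ ⟨i, rfl⟩
    exact hint i)
  have hWfin : Module.Finite F₀ W := Module.Finite.iff_fg.2 hW
  have hmem : ∀ a, mo x a ∈ W := by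
    intro a
    show mo x a ∈ Algebra.adjoin F₀ (Set.range x)
    refine Subalgebra.prod_mem _ fun i _ => Subalgebra.pow_mem _ (Algebra.subset_adjoin (Set.mem_range_self i)) _
  have hbfin : Finite b := by
    have h1 : LinearIndependent F₀ fun i : b => (⟨mo x i, hmem i⟩ : W) := by
      refine LinearIndependent.of_comp W.subtype ?_
      exact hlin
    exact h1.finite
  let e := Finite.equivFin b
  let n := Nat.card b
  let ε : Fin n → Fin m →₀ ℕ := fun l => ((e.symm l : b) : Fin m →₀ ℕ)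
  have hli : LinearIndependent F₀ fun l : Fin n => mo x (ε l) := LinearIndependent.comp hlin _ e.symm.injective
  have hrange : Set.range (fun l : Fin n => mo x (ε l)) = mo x '' b := by
    ext z
    constructor
    · rintro ⟨k, rfl⟩
      exact ⟨_, (e.symm k).2, rfl⟩
    · rintro ⟨i, hi, rfl⟩
      refine ⟨e ⟨i, hi⟩, ?_⟩
      show mo x ((e.symm (e ⟨i, hi⟩) : b) : Fin m →₀ ℕ) = mo x i
      rw [Equiv.symm_apply_apply]
  have hsp : ∀ a, ∃ c : Fin n → F₀, ∑ l, c l • mo x (ε l) = mo x a := by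
    intro a
    have h1 : mo x a ∈ Submodule.span F₀ (Set.range fun l : Fin n => mo x (ε l)) := by
      rw [hrange]
      exact hspan ⟨a, Set.mem_univ a, rfl⟩
    exact (Submodule.mem_span_range_iff_exists_fun F₀).1 h1
  choose c hc using fun (i : Fin m) (j : Fin n) => hsp (Finsupp.single i 1 + ε j)
  obtain ⟨g, hg, hall⟩ := exists_denom (t := x ∘ y) (univ : Finset (Fin m × Fin n × Fin n))
    (fun s => ((c s.1 s.2.1 s.2.2 : F₀) : K)) fun s _ => (c s.1 s.2.1 s.2.2).2
  choose T hT using fun (i : Fin m) (j l : Fin n) => hall (i, j, l) (mem_univ _)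
  refine ⟨⟨d, y, hy, n, ε, e ⟨0, h0b⟩, ?_, g, T⟩, hg, fun i j => ?_, fun v hv h => hv ?_⟩
  · show ((e.symm (e ⟨0, h0b⟩) : b) : Fin m →₀ ℕ) = 0
    rw [Equiv.symm_apply_apply]
  · show aeval (x ∘ y) g * x i * mo x (ε j) = ∑ l, aeval (x ∘ y) (T i j l) * mo x (ε l)
    have h1 := hc i j
    rw [mo_add, mo_single] at h1
    rw [mul_assoc, ← h1, Finset.mul_sum]
    refine Finset.sum_congr rfl fun l _ => ?_
    rw [← hT i j l, mul_assoc]
    rfl
  · have h1 : ∑ l, (⟨aeval (x ∘ y) (v l), aeval_mem_closure _ _⟩ : F₀) • mo x (ε l) = 0 := h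
    funext l
    have h2 := Fintype.linearIndependent_iff.1 hli _ h1 l
    have h3 : aeval (x ∘ y) (v l) = 0 := congrArg (fun z : F₀ => (z : K)) h2
    exact (injective_iff_map_eq_zero _).1 hind _ h3

end Pool.Agent.H446.AP10
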