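import Pool.Agent.H446.AP10.Dat

/-!
# Polynomials with exponents in a box
-/

set_option autoImplicit false

namespace Pool.Agent.H446.AP10

open Finset MvPolynomial

/-- The exponent vector of an element of the box. -/
noncomputable def toF {d L : ℕ} (a : Fin d → Fin L) : Fin d →₀ ℕ := Finsupp.equivFunOnFinite.symm fun i => (a i : ℕ)

lemma toF_apply {d L : ℕ} (a : Fin d → Fin L) (i : Fin d) : toF a i = a i := rfl

lemma toF_inj {d L : ℕ} {a b : Fin d → Fin L} (h : toF a = toF b) : a = b := by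
  funext i
  have h1 := DFunLike.congr_fun h i
  rw [toF_apply, toF_apply] at h1
  exact Fin.ext h1

lemma exists_toF {d L : ℕ} {a : Fin d →₀ ℕ} (h : ∀ i, a i < L) : ∃ a' : Fin d → Fin L, toF a' = a :=
  ⟨fun i => ⟨a i, h i⟩, Finsupp.ext fun _ => rfl⟩

/-- The polynomial with given coefficients. -/
noncomputable def pol {d L : ℕ} (b : (Fin d → Fin L) → ℤ) : MvPolynomial (Fin d) ℤ := ∑ a, monomial (toF a) (b a)

lemma pol_add {d L : ℕ} (b b' : (Fin d → Fin L) → ℤ) : pol (fun a => b a + b' a) = pol b + pol b' := by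
  unfold pol
  rw [← Finset.sum_add_distrib]
  exact Finset.sum_congr rfl fun a _ => map_add _ _ _

lemma pol_zero {d L : ℕ} : pol (fun _ : Fin d → Fin L => (0 : ℤ)) = 0 := by
  unfold pol
  exact Finset.sum_eq_zero fun a _ => map_zero _

lemma coeff_pol {d L : ℕ} (b : (Fin d → Fin L) → ℤ) (a : Fin d → Fin L) : (pol b).coeff (toF a) = b a := by
  classical
  unfold pol
  rw [coeff_sum, Finset.sum_eq_single a]
  · rw [coeff_monomial, if_pos rfl]
  · intro a' _ h
    rw [coeff_monomial, if_neg fun h' => h (toF_inj h')]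
  · intro h; exact absurd (mem_univ _) h

lemma coeff_pol' {d L : ℕ} (b : (Fin d → Fin L) → ℤ) {a : Fin d →₀ ℕ} (h : ¬ ∀ i, a i < L) : (pol b).coeff a = 0 := by
  classical
  unfold pol
  rw [coeff_sum]
  refine Finset.sum_eq_zero fun a' _ => ?_
  rw [coeff_monomial, if_neg]
  rintro rfl
  exact h fun i => (a' i).2

lemma pol_coeff {d D : ℕ} {f : MvPolynomial (Fin d) ℤ} (hf : DL D f) :
    pol (fun a : Fin d → Fin (D + 1) => f.coeff (toF a)) = f := by
  classical
  refine MvPolynomial.ext _ _ fun a => ?_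
  by_cases h : ∀ i, a i < D + 1
  · obtain ⟨a', rfl⟩ := exists_toF h
    rw [coeff_pol]
  · rw [coeff_pol' _ h]
    by_contra h1
    refine h fun i => ?_
    have h2 : a ∈ f.support := mem_support_iff.2 fun h3 => h1 h3.symm
    have h3 := degreeOf_le_iff.1 (hf i) a h2
    omega

lemma DL_pol {d L D : ℕ} (b : (Fin d → Fin L) → ℤ) (hL : 0 < d → 0 < L → L ≤ D + 1) : DL D (pol b) := by
  classical
  intro i
  rw [degreeOf_le_iff]
  intro a ha
  by_contra h
  have h1 : ∀ i, a i < L := by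
    by_contra h2
    exact mem_support_iff.1 ha (coeff_pol' b h2)
  have h2 := h1 i
  have h3 := hL i.pos (by omega)
  omega

/-- The multiplication with a vector of polynomials. -/
noncomputable def mulBox {d n L L' : ℕ} (w : Fin n → MvPolynomial (Fin d) ℤ) :
    ((Fin d → Fin L') → ℤ) →+ (Fin n × (Fin d → Fin L) → ℤ) where
  toFun h := fun t => (pol h * w t.1).coeff (toF t.2)
  map_zero' := by
    funext t
    show (pol (fun _ => (0 : ℤ)) * w t.1).coeff (toF t.2) = 0
    rw [pol_zero, zero_mul, coeff_zero]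
  map_add' := fun h h' => by
    funext t
    show (pol (fun a => h a + h' a) * w t.1).coeff (toF t.2) = _ + _
    rw [pol_add, add_mul, coeff_add]

/-- The value of a vector. -/
noncomputable def EV {m : ℕ} (A : Dat m) (L : ℕ) {k : Type*} [CommRing k] (z : Fin m → k) :
    (Fin A.n × (Fin A.d → Fin L) → ℤ) →+ k where
  toFun b := A.ev z fun l => pol fun a => b (l, a)
  map_zero' := by
    show A.ev z (fun l => pol fun _ => (0 : ℤ)) = 0
    unfold Dat.ev
    refine Finset.sum_eq_zero fun l _ => ?_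
    rw [pol_zero, map_zero, zero_mul]
  map_add' := fun b b' => by
    show A.ev z (fun l => pol fun a => b (l, a) + b' (l, a)) = A.ev z (fun l => pol fun a => b (l, a)) +
      A.ev z (fun l => pol fun a => b' (l, a))
    unfold Dat.ev
    rw [← Finset.sum_add_distrib]
    refine Finset.sum_congr rfl fun l _ => ?_
    show aeval (z ∘ A.y) (pol fun a => b (l, a) + b' (l, a)) * mo z (A.ε l) = _
    rw [pol_add, map_add, add_mul]

lemma EV_apply {m : ℕ} (A : Dat m) (L : ℕ) {k : Type*} [CommRing k] (z : Fin m → k)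
    (b : Fin A.n × (Fin A.d → Fin L) → ℤ) : EV A L z b = A.ev z fun l => pol fun a => b (l, a) := rfl

lemma EV_mulBox {m : ℕ} (A : Dat m) {D L' : ℕ} {k : Type*} [CommRing k] (z : Fin m → k)
    (w : Fin A.n → MvPolynomial (Fin A.d) ℤ) (h : (Fin A.d → Fin L') → ℤ) (hD : ∀ l, DL D (pol h * w l)) :
    EV A (D + 1) z (mulBox w h) = aeval (z ∘ A.y) (pol h) * A.ev z w := by
  have h1 : (fun l => pol fun a : Fin A.d → Fin (D + 1) => (pol h * w l).coeff (toF a)) = fun l => pol h * w l :=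
    funext fun l => pol_coeff (hD l)
  have h2 : EV A (D + 1) z (mulBox w h) =
    A.ev z (fun l => pol fun a : Fin A.d → Fin (D + 1) => (pol h * w l).coeff (toF a)) := rfl
  rw [h2, h1, A.ev_smul]

/-- The exponents of the monomials of the auxiliary function. -/
noncomputable def expo {m : ℕ} (A : Dat m) {L : ℕ} (t : Fin A.n × (Fin A.d → Fin L)) : Fin m →₀ ℕ :=
  (toF t.2).mapDomain A.y + A.ε t.1

/-- The auxiliary function as a polynomial. -/
noncomputable def Rb {m : ℕ} (A : Dat m) {L : ℕ} (b : Fin A.n × (Fin A.d → Fin L) → ℤ) : MvPolynomial (Fin m) ℤ :=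
  ∑ t, monomial (expo A t) (b t)

lemma aeval_pol {d L : ℕ} {k : Type*} [CommRing k] (z : Fin d → k) (b : (Fin d → Fin L) → ℤ) :
    aeval z (pol b) = ∑ a, (b a : k) * ∏ i, z i ^ (a i : ℕ) := by
  unfold pol
  rw [map_sum]
  refine Finset.sum_congr rfl fun a _ => ?_
  rw [aeval_monomial, eq_intCast, Finsupp.prod_fintype _ _ fun i => pow_zero _]
  rfl

lemma mo_expo {m : ℕ} (A : Dat m) {L : ℕ} (t : Fin A.n × (Fin A.d → Fin L)) {k : Type*} [CommRing k] (z : Fin m → k) :
    mo z (expo A t) = (∏ i, (z ∘ A.y) i ^ (t.2 i : ℕ)) * mo z (A.ε t.1) := by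
  classical
  have h1 : ∀ i, (Finsupp.mapDomain A.y (toF t.2)) (A.y i) = t.2 i := fun i => Finsupp.mapDomain_apply A.hy _ _
  unfold mo expo
  simp only [Finsupp.add_apply, pow_add, Finset.prod_mul_distrib]
  congr 1
  have h2 : ∏ i : Fin A.d, (z ∘ A.y) i ^ (t.2 i : ℕ) =
      ∏ i ∈ univ.image A.y, z i ^ (Finsupp.mapDomain A.y (toF t.2)) i := by
    rw [Finset.prod_image fun a _ b _ h => A.hy h]
    refine Finset.prod_congr rfl fun i _ => ?_
    rw [h1]
    rfl
  rw [h2]
  refine (Finset.prod_subset (subset_univ _) fun i _ hi => ?_).symm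
  rw [Finsupp.mapDomain_of_notMem_range, pow_zero]
  rintro ⟨j, rfl⟩
  exact hi (mem_image_of_mem _ (mem_univ _))

lemma aeval_Rb {m : ℕ} (A : Dat m) {L : ℕ} (b : Fin A.n × (Fin A.d → Fin L) → ℤ) {k : Type*} [CommRing k]
    (z : Fin m → k) : aeval z (Rb A b) = EV A L z b := by
  rw [EV_apply]
  unfold Rb Dat.ev
  rw [map_sum, Fintype.sum_prod_type]
  refine Finset.sum_congr rfl fun l _ => ?_
  rw [aeval_pol, Finset.sum_mul]
  refine Finset.sum_congr rfl fun a _ => ?_
  rw [aeval_monomial, eq_intCast, Finsupp.prod_fintype _ _ fun i => pow_zero _, mul_assoc, ← mo_expo A (l, a)]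
  rfl

lemma support_Rb {m : ℕ} (A : Dat m) {L : ℕ} (b : Fin A.n × (Fin A.d → Fin L) → ℤ) {a : Fin m →₀ ℕ}
    (ha : a ∈ (Rb A b).support) : ∃ t : Fin A.n × (Fin A.d → Fin L), a = expo A t := by
  classical
  by_contra h
  push Not at h
  refine mem_support_iff.1 ha ?_
  unfold Rb
  rw [coeff_sum]
  refine Finset.sum_eq_zero fun t _ => ?_
  rw [coeff_monomial, if_neg fun h1 => h t h1.symm]

lemma expo_le {m : ℕ} (A : Dat m) {D E : ℕ} (hE : ∀ l i, A.ε l i ≤ E) (t : Fin A.n × (Fin A.d → Fin (D + 1)))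
    (i : Fin m) : expo A t i ≤ D + E := by
  classical
  unfold expo
  rw [Finsupp.add_apply]
  refine add_le_add ?_ (hE _ _)
  by_cases h : i ∈ Set.range A.y
  · obtain ⟨j, rfl⟩ := h
    rw [Finsupp.mapDomain_apply A.hy, toF_apply]
    have := (t.2 j).2
    omega
  · rw [Finsupp.mapDomain_of_notMem_range _ _ h]
    exact Nat.zero_le _

lemma sum_coeff_Rb {m : ℕ} (A : Dat m) {L : ℕ} (b : Fin A.n × (Fin A.d → Fin L) → ℤ) {B : ℕ}
    (hb : ∀ t, |b t| ≤ B) :
    ∑ a ∈ (Rb A b).support, |(((Rb A b).coeff a : ℤ) : ℝ)| ≤ (A.n * L ^ A.d : ℕ) * B := by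
  classical
  have h1 : ∀ a ∈ (Rb A b).support, |(((Rb A b).coeff a : ℤ) : ℝ)| ≤
      ∑ t : Fin A.n × (Fin A.d → Fin L), if expo A t = a then |((b t : ℤ) : ℝ)| else 0 := by
    intro a _
    have h2 : (((Rb A b).coeff a : ℤ) : ℝ) =
        ∑ t : Fin A.n × (Fin A.d → Fin L), if expo A t = a then ((b t : ℤ) : ℝ) else 0 := by
      unfold Rb
      rw [coeff_sum, Int.cast_sum]
      refine Finset.sum_congr rfl fun t _ => ?_
      rw [coeff_monomial]
      split_ifs <;> simp
    rw [h2]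
    refine (Finset.abs_sum_le_sum_abs _ _).trans (le_of_eq ?_)
    refine Finset.sum_congr rfl fun t _ => ?_
    split_ifs <;> simp
  refine (Finset.sum_le_sum h1).trans ?_
  rw [Finset.sum_comm]
  have h3 : ∀ t ∈ (univ : Finset (Fin A.n × (Fin A.d → Fin L))),
      (∑ a ∈ (Rb A b).support, if expo A t = a then |((b t : ℤ) : ℝ)| else 0) ≤ B := by
    intro t _
    rw [Finset.sum_ite_eq]
    have h4 : |((b t : ℤ) : ℝ)| ≤ B := by
      have := hb t
      exact_mod_cast this
    split_ifs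
    · exact h4
    · positivity
  refine (Finset.sum_le_sum h3).trans (le_of_eq ?_)
  rw [Finset.sum_const, nsmul_eq_mul, card_univ, Fintype.card_prod, Fintype.card_fin, Fintype.card_fun,
    Fintype.card_fin, Fintype.card_fin]

/-- The multiplication with a vector which is not zero modulo `p` is injective modulo `p`. -/
lemma mulBox_inj {d n D L' p : ℕ} (hp : p.Prime) (w : Fin n → MvPolynomial (Fin d) ℤ)
    (hw : ∃ l, MvPolynomial.map (Int.castRingHom (ZMod p)) (w l) ≠ 0) (h : (Fin d → Fin L') → ℤ)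
    (hD : ∀ l, DL D (pol h * w l))
    (h0 : ∀ t, (p : ℤ) ∣ (mulBox (L := D + 1) w h) t) : ∀ i, (p : ℤ) ∣ h i := by
  classical
  have hfact : Fact p.Prime := ⟨hp⟩
  obtain ⟨l, hl⟩ := hw
  have h1 : MvPolynomial.map (Int.castRingHom (ZMod p)) (pol h * w l) = 0 := by
    refine MvPolynomial.ext _ _ fun a => ?_
    rw [coeff_map, coeff_zero, eq_intCast, ZMod.intCast_zmod_eq_zero_iff_dvd]
    by_cases h2 : ∀ i, a i < D + 1
    · obtain ⟨a', rfl⟩ := exists_toF h2
      exact h0 (l, a')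
    · have h3 : (pol h * w l).coeff a = 0 := by
        rw [← pol_coeff (hD l)]
        exact coeff_pol' _ h2
      rw [h3]
      exact dvd_zero _
  rw [map_mul] at h1
  have h2 := (mul_eq_zero.1 h1).resolve_right hl
  intro i
  have h3 := congrArg (MvPolynomial.coeff (toF i)) h2
  rw [coeff_map, coeff_pol, coeff_zero, eq_intCast, ZMod.intCast_zmod_eq_zero_iff_dvd] at h3
  exact h3

end Pool.Agent.H446.AP10
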