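import Mathlib

/-!
# The inequality for the pigeonhole principle
-/

set_option autoImplicit false

namespace Pool.Agent.H446.AP10

open Finset

lemma bern {d m x L : ℕ} (hd : d ≤ m) (hx : x * (2 * (m + 1)) ≤ L) (hL : 0 < L) :
    (L : ℝ) ^ d / 2 ≤ ((L - x : ℕ) : ℝ) ^ d := by
  have hL' : (0 : ℝ) < L := by exact_mod_cast hL
  have hxL : x ≤ L := le_trans (Nat.le_mul_of_pos_right x (by omega)) hx
  have hx' : (x : ℝ) * (2 * (m + 1)) ≤ L := by exact_mod_cast hx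
  have hd' : (d : ℝ) ≤ m := by exact_mod_cast hd
  have hx0 : (0 : ℝ) ≤ x := Nat.cast_nonneg x
  have hm0 : (0 : ℝ) ≤ m := Nat.cast_nonneg m
  have h1 : (x : ℝ) / L ≤ 1 := by
    rw [div_le_one hL']
    exact_mod_cast hxL
  have h2 := one_add_mul_le_pow (a := -((x : ℝ) / L)) (by linarith) d
  have h3 : (d : ℝ) * ((x : ℝ) / L) ≤ 1 / 2 := by
    rw [← mul_div_assoc, div_le_iff₀ hL']
    nlinarith [mul_le_mul_of_nonneg_right hd' hx0]
  have h4 : ((L - x : ℕ) : ℝ) = L * (1 + -((x : ℝ) / L)) := by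
    rw [Nat.cast_sub hxL]
    field_simp
    ring
  rw [h4, mul_pow]
  have h5 : (1 : ℝ) / 2 ≤ (1 + -((x : ℝ) / L)) ^ d := by linarith
  have h6 : 0 < (L : ℝ) ^ d := pow_pos hL' d
  nlinarith [mul_le_mul_of_nonneg_left h5 h6.le]

/-- The exponents. -/
def kk (m D C₁ p : ℕ) : ℕ := (D + 1) / (2 * (m + 1) * (C₁ * p))

/-- The logarithm of the bound for the coefficients. -/
noncomputable def Lam (Q : Finset ℕ) (n m D C₁ : ℕ) : ℝ :=
  (1 - 1 / (2 * n)) * ∑ p ∈ Q, (kk m D C₁ p : ℝ) * Real.log p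

lemma card_ineq (Q : Finset ℕ) (hQ : ∀ p ∈ Q, p.Prime) {n d m D C₁ : ℕ} (hn : 0 < n) (hd : d ≤ m) :
    ∏ p ∈ Q, p ^ (kk m D C₁ p * (n * (D + 1) ^ d)) <
      (⌊Real.exp (Lam Q n m D C₁)⌋₊ + 1) ^ (n * (D + 1) ^ d) *
        ∏ p ∈ Q, p ^ (∑ j ∈ range (kk m D C₁ p), (D + 1 - (j + 1) * (C₁ * p)) ^ d) := by
  set Λ := Lam Q n m D C₁ with hΛ
  set B := ⌊Real.exp Λ⌋₊ with hB
  set N := n * (D + 1) ^ d with hN
  have hn' : (0 : ℝ) < n := by exact_mod_cast hn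
  have hN0 : 0 < N := by positivity
  have hN0' : (0 : ℝ) < N := by exact_mod_cast hN0
  have hp0 : ∀ p ∈ Q, p ≠ 0 := fun p hp => (hQ p hp).ne_zero
  have hl0 : 0 < ∏ p ∈ Q, p ^ (kk m D C₁ p * N) := Finset.prod_pos fun p hp => pow_pos (hQ p hp).pos _
  have hr0 : 0 < ∏ p ∈ Q, p ^ (∑ j ∈ range (kk m D C₁ p), (D + 1 - (j + 1) * (C₁ * p)) ^ d) :=
    Finset.prod_pos fun p hp => pow_pos (hQ p hp).pos _
  have hB1 : Λ < Real.log ((B : ℝ) + 1) := by
    rw [Real.lt_log_iff_exp_lt (by positivity)]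
    exact Nat.lt_floor_add_one _
  have key : Real.log ((∏ p ∈ Q, p ^ (kk m D C₁ p * N) : ℕ) : ℝ) <
      Real.log (((B + 1) ^ N *
        ∏ p ∈ Q, p ^ (∑ j ∈ range (kk m D C₁ p), (D + 1 - (j + 1) * (C₁ * p)) ^ d) : ℕ) : ℝ) := by
    have h1 : Real.log ((∏ p ∈ Q, p ^ (kk m D C₁ p * N) : ℕ) : ℝ) = N * ∑ p ∈ Q, (kk m D C₁ p : ℝ) * Real.log p := by
      push_cast
      rw [Real.log_prod fun p hp => pow_ne_zero _ (by exact_mod_cast hp0 p hp), Finset.mul_sum]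
      refine Finset.sum_congr rfl fun p _ => ?_
      rw [Real.log_pow]
      push_cast
      ring
    have h2 : Real.log (((B + 1) ^ N *
        ∏ p ∈ Q, p ^ (∑ j ∈ range (kk m D C₁ p), (D + 1 - (j + 1) * (C₁ * p)) ^ d) : ℕ) : ℝ) =
        N * Real.log ((B : ℝ) + 1) + ∑ p ∈ Q,
          (∑ j ∈ range (kk m D C₁ p), ((D + 1 - (j + 1) * (C₁ * p) : ℕ) : ℝ) ^ d) * Real.log p := by
      rw [Nat.cast_mul, Real.log_mul (by positivity) (by exact_mod_cast hr0.ne')]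
      congr 1
      · push_cast
        rw [Real.log_pow]
      · rw [Nat.cast_prod, Real.log_prod fun p hp => by
          rw [Nat.cast_pow]
          exact pow_ne_zero _ (by exact_mod_cast hp0 p hp)]
        refine Finset.sum_congr rfl fun p _ => ?_
        rw [Nat.cast_pow, Real.log_pow, Nat.cast_sum]
        congr 1
        exact Finset.sum_congr rfl fun j _ => Nat.cast_pow _ _
    have h3 : ∀ p ∈ Q, (kk m D C₁ p : ℝ) * (N / (2 * n)) ≤
        ∑ j ∈ range (kk m D C₁ p), ((D + 1 - (j + 1) * (C₁ * p) : ℕ) : ℝ) ^ d := by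
      intro p _
      have h4 : (kk m D C₁ p : ℝ) * (N / (2 * n)) =
          ∑ _j ∈ range (kk m D C₁ p), ((D + 1 : ℕ) : ℝ) ^ d / 2 := by
        rw [Finset.sum_const, card_range, nsmul_eq_mul, hN]
        push_cast
        field_simp
      rw [h4]
      refine Finset.sum_le_sum fun j hj => bern hd ?_ (by omega)
      rw [mem_range] at hj
      have h5 : kk m D C₁ p * (2 * (m + 1) * (C₁ * p)) ≤ D + 1 := Nat.div_mul_le_self _ _
      calc (j + 1) * (C₁ * p) * (2 * (m + 1)) = (j + 1) * (2 * (m + 1) * (C₁ * p)) := by ring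
        _ ≤ kk m D C₁ p * (2 * (m + 1) * (C₁ * p)) := Nat.mul_le_mul_right _ hj
        _ ≤ _ := h5
    rw [h1, h2]
    have h5 : ∑ p ∈ Q, (kk m D C₁ p : ℝ) * (N / (2 * n)) * Real.log p ≤ ∑ p ∈ Q,
        (∑ j ∈ range (kk m D C₁ p), ((D + 1 - (j + 1) * (C₁ * p) : ℕ) : ℝ) ^ d) * Real.log p := by
      refine Finset.sum_le_sum fun p hp => mul_le_mul_of_nonneg_right (h3 p hp) ?_
      exact Real.log_nonneg (by exact_mod_cast (hQ p hp).one_lt.le)
    have h6 : ∑ p ∈ Q, (kk m D C₁ p : ℝ) * (N / (2 * n)) * Real.log p =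
        N * (1 / (2 * n)) * ∑ p ∈ Q, (kk m D C₁ p : ℝ) * Real.log p := by
      rw [Finset.mul_sum]
      refine Finset.sum_congr rfl fun p _ => ?_
      ring
    have h7 := mul_lt_mul_of_pos_left hB1 hN0'
    have h8 : (N : ℝ) * Λ = N * ∑ p ∈ Q, (kk m D C₁ p : ℝ) * Real.log p -
        N * (1 / (2 * n)) * ∑ p ∈ Q, (kk m D C₁ p : ℝ) * Real.log p := by
      rw [hΛ, Lam]
      ring
    linarith
  have h9 := (Real.log_lt_log_iff (by exact_mod_cast hl0) (by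
    have : 0 < (B + 1) ^ N * ∏ p ∈ Q, p ^ (∑ j ∈ range (kk m D C₁ p), (D + 1 - (j + 1) * (C₁ * p)) ^ d) := by
      positivity
    exact_mod_cast this)).1 key
  exact_mod_cast h9

lemma exists_D (n d : ℕ) (K : ℝ) : ∃ D : ℕ, Real.log n + d * Real.log ((D : ℝ) + 1) + K < D + 1 := by
  obtain ⟨t, ht⟩ := exists_nat_gt (2 * (d : ℝ) + |Real.log n + K| + 2)
  have hd : (0 : ℝ) ≤ d := Nat.cast_nonneg d
  have ha := abs_nonneg (Real.log n + K)
  have ha' := le_abs_self (Real.log n + K)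
  have ht2 : (2 : ℝ) < t := by linarith
  have ht1 : 2 < t := by exact_mod_cast ht2
  have ht0 : 1 ≤ t ^ 2 := Nat.one_le_pow _ _ (by omega)
  refine ⟨t ^ 2 - 1, ?_⟩
  have h1 : ((t ^ 2 - 1 : ℕ) : ℝ) + 1 = (t : ℝ) ^ 2 := by
    rw [Nat.cast_sub ht0]
    push_cast
    ring
  rw [h1, Real.log_pow]
  have h2 : Real.log t ≤ t - 1 := Real.log_le_sub_one_of_pos (by linarith)
  have h3 : (d : ℝ) * ((2 : ℕ) * Real.log t) ≤ d * (2 * t) := by
    refine mul_le_mul_of_nonneg_left ?_ hd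
    push_cast
    linarith
  nlinarith [mul_lt_mul_of_pos_right ht (show (0 : ℝ) < t by linarith)]

end Pool.Agent.H446.AP10
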