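import Pool.Agent.H446.AP10.Noe
import Pool.Agent.H446.AP5.Padic

/-!
# Algebraic points on special varieties are good
-/

set_option autoImplicit false

namespace Pool.Agent.H446.AP10

open Finset MvPolynomial
open Pool.Agent.H446.AP4 (pInt)
open Pool.Agent.H446.AP5 (PI PI_of_map)

/-- An algebraic number is integral at almost all primes. -/
lemma pInt_almost {w : ℂ} (hw : IsAlgebraic ℤ w) : ∃ d : ℕ, 0 < d ∧ ∀ (p : ℕ) (_ : Fact p.Prime), ¬ p ∣ d → w ∈ pInt p := by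
  obtain ⟨y, hy0, hy⟩ := hw.exists_integral_multiple
  refine ⟨y.natAbs, Int.natAbs_pos.2 hy0, fun p _ hp => ⟨y, fun h => hp ?_, ?_⟩⟩
  · exact Int.natCast_dvd.1 h
  · rwa [zsmul_eq_mul] at hy

/-- Finitely many algebraic numbers. -/
lemma pInt_almost' {ι : Type*} (s : Finset ι) (w : ι → ℂ) (hw : ∀ i ∈ s, IsAlgebraic ℤ (w i)) :
    ∃ d : ℕ, 0 < d ∧ ∀ (p : ℕ) (_ : Fact p.Prime), ¬ p ∣ d → ∀ i ∈ s, w i ∈ pInt p := by
  classical
  induction s using Finset.induction_on with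
  | empty => exact ⟨1, one_pos, fun p _ _ i hi => absurd hi (notMem_empty i)⟩
  | insert i s hi ih =>
    obtain ⟨d, hd, h1⟩ := ih fun j hj => hw j (mem_insert_of_mem hj)
    obtain ⟨e, he, h2⟩ := pInt_almost (hw i (mem_insert_self _ _))
    refine ⟨d * e, Nat.mul_pos hd he, fun p hp hpd j hj => ?_⟩
    rcases mem_insert.1 hj with rfl | hj
    · exact h2 p hp fun h => hpd (h.mul_left d)
    · exact h1 p hp (fun h => hpd (h.mul_right e)) j hj

/-- The numbers that are topologically nilpotent at `p`. -/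
def Nil (p : ℕ) [Fact p.Prime] (z : ℂ) : Prop := z ∈ pInt p ∧ ∃ n : ℕ, ∃ y ∈ pInt p, z ^ n = p * y

lemma nil_iff {p : ℕ} [Fact p.Prime] (z : pInt p) :
    Nil p (z : ℂ) ↔ z ∈ (Ideal.span {((p : ℕ) : pInt p)}).radical := by
  rw [Ideal.mem_radical_iff]
  constructor
  · rintro ⟨-, n, y, hy, h⟩
    refine ⟨n, Ideal.mem_span_singleton.2 ⟨⟨y, hy⟩, Subtype.ext ?_⟩⟩
    rw [SubmonoidClass.coe_pow, h]
    rfl
  · rintro ⟨n, h⟩
    obtain ⟨y, hy⟩ := Ideal.mem_span_singleton.1 h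
    refine ⟨z.2, n, y, y.2, ?_⟩
    have h1 := congrArg (fun t : pInt p => (t : ℂ)) hy
    rw [← SubmonoidClass.coe_pow]
    exact h1

lemma Nil.sum {p : ℕ} [Fact p.Prime] {ι : Type*} (s : Finset ι) {z : ι → ℂ} (hz : ∀ i ∈ s, Nil p (z i)) :
    Nil p (∑ i ∈ s, z i) := by
  classical
  have hmem : ∀ i ∈ s, z i ∈ pInt p := fun i hi => (hz i hi).1
  let w : ι → pInt p := fun i => if h : z i ∈ pInt p then ⟨z i, h⟩ else 0
  have hw : ∀ i ∈ s, (w i : ℂ) = z i := fun i hi => by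
    show ((if h : z i ∈ pInt p then (⟨z i, h⟩ : pInt p) else 0 : pInt p) : ℂ) = z i
    rw [dif_pos (hmem i hi)]
  have h1 : ∑ i ∈ s, z i = ((∑ i ∈ s, w i : pInt p) : ℂ) := by
    rw [AddSubmonoidClass.coe_finsetSum]
    exact Finset.sum_congr rfl fun i hi => (hw i hi).symm
  rw [h1, nil_iff]
  refine Ideal.sum_mem _ fun i hi => ?_
  rw [← nil_iff, hw i hi]
  exact hz i hi

lemma Nil.mul {p : ℕ} [Fact p.Prime] {z w : ℂ} (hz : Nil p z) (hw : w ∈ pInt p) : Nil p (z * w) := by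
  obtain ⟨h1, n, y, hy, h⟩ := hz
  refine ⟨(pInt p).mul_mem h1 hw, n, y * w ^ n, (pInt p).mul_mem hy ((pInt p).pow_mem hw _), ?_⟩
  rw [mul_pow, h]
  ring

/-- A rational number which is topologically nilpotent at `p` is divisible by `p`. -/
lemma Nil.rat {p : ℕ} [hp : Fact p.Prime] {t : ℚ} (h : Nil p (t : ℂ)) : (t : ℂ) / p ∈ pInt p := by
  obtain ⟨-, n, y, hy, h⟩ := h
  have hp0 : (p : ℂ) ≠ 0 := by exact_mod_cast hp.out.ne_zero
  have hden : (t.den : ℂ) ≠ 0 := by exact_mod_cast t.den_ne_zero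
  have ht : (t : ℂ) * t.den = t.num := by exact_mod_cast Rat.mul_den_eq_num t
  have h1 : ((t.num ^ n : ℤ) : ℂ) = (p : ℂ) ^ 1 * (y * (t.den : ℂ) ^ n) := by
    push_cast
    rw [← ht, mul_pow, h]
    ring
  have h2 : (p : ℤ) ^ 1 ∣ t.num ^ n :=
    Pool.Agent.H446.AP4.pow_dvd_of_mem ((pInt p).mul_mem hy ((pInt p).pow_mem (natCast_mem _ _) _)) h1
  rw [pow_one] at h2
  have h3 : (p : ℤ) ∣ t.num := (Nat.prime_iff_prime_int.1 hp.out).dvd_of_dvd_pow h2
  obtain ⟨a, ha⟩ := h3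
  refine ⟨t.den, fun h4 => ?_, ?_⟩
  · have h5 : p ∣ t.num.natAbs := Int.natCast_dvd.1 ⟨a, ha⟩
    have h6 : p ∣ t.den := by exact_mod_cast h4
    have h7 := Nat.dvd_gcd h5 h6
    rw [t.reduced] at h7
    exact hp.out.one_lt.ne' (Nat.dvd_one.1 h7)
  · have h5 : ((t.den : ℤ) : ℂ) * ((t : ℂ) / p) = ((a : ℤ) : ℂ) := by
      have h6 : (t.num : ℂ) = p * a := by
        rw [ha]
        push_cast
        ring
      push_cast
      field_simp
      rw [mul_comm, ht, h6]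
    rw [h5]
    exact isIntegral_algebraMap

/-- A number which is not topologically nilpotent has a reduction which is not zero. -/
lemma exists_field {p : ℕ} [hp : Fact p.Prime] (z : pInt p) (hz : ¬ Nil p (z : ℂ)) :
    ∃ (k : Type) (_ : Field k) (_ : CharP k p) (φ : pInt p →+* k), φ z ≠ 0 := by
  rw [nil_iff, Ideal.radical_eq_sInf, Submodule.mem_sInf] at hz
  push Not at hz
  obtain ⟨P, ⟨hP1, hP2⟩, hz⟩ := hz
  have hdom : IsDomain (pInt p ⧸ P) := Ideal.Quotient.isDomain P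
  let φ : pInt p →+* FractionRing (pInt p ⧸ P) :=
    (algebraMap (pInt p ⧸ P) (FractionRing (pInt p ⧸ P))).comp (Ideal.Quotient.mk P)
  have hφ : ∀ w, φ w = 0 ↔ w ∈ P := by
    intro w
    rw [← Ideal.Quotient.eq_zero_iff_mem]
    show algebraMap (pInt p ⧸ P) (FractionRing (pInt p ⧸ P)) (Ideal.Quotient.mk P w) = 0 ↔ _
    rw [map_eq_zero_iff _ (IsFractionRing.injective (pInt p ⧸ P) (FractionRing (pInt p ⧸ P)))]
  refine ⟨FractionRing (pInt p ⧸ P), inferInstance, ?_, φ, fun h => hz ((hφ z).1 h)⟩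
  refine (CharP.charP_iff_prime_eq_zero hp.out).2 ?_
  have h1 : φ ((p : ℕ) : pInt p) = 0 := (hφ _).2 (hP1 (Ideal.mem_span_singleton_self _))
  rwa [map_natCast] at h1

lemma alg_int {K : Type*} [Field K] [Algebra ℚ K] [FiniteDimensional ℚ K] (σ : K →ₐ[ℚ] ℂ) (x : K) :
    IsAlgebraic ℤ (σ x) := by
  have h1 : IsAlgebraic ℚ x := Algebra.IsAlgebraic.isAlgebraic x
  have h2 : IsAlgebraic ℚ (σ x) := h1.algHom σ
  exact (IsFractionRing.isAlgebraic_iff ℤ ℚ ℂ).2 h2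

/-- **The trace argument.** -/
lemma trace_conv {K : Type*} [Field K] [Algebra ℚ K] [FiniteDimensional ℚ K] (τ : K →ₐ[ℚ] ℂ) :
    ∃ d : ℕ, 0 < d ∧ ∀ (p : ℕ) (_ : Fact p.Prime), ¬ p ∣ d → ∀ β : K, (∀ σ : K →ₐ[ℚ] ℂ, Nil p (σ β)) →
      τ β / p ∈ pInt p := by
  classical
  let b := Module.finBasis ℚ K
  let M := Algebra.traceMatrix ℚ b
  have hM : IsUnit M.det := by
    rw [isUnit_iff_ne_zero]
    exact Algebra.discr_not_zero_of_basis ℚ b
  obtain ⟨d₁, hd₁, h1⟩ := pInt_almost' (univ : Finset ((K →ₐ[ℚ] ℂ) × Fin (Module.finrank ℚ K)))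
    (fun t => t.1 (b t.2)) fun t _ => alg_int t.1 _
  obtain ⟨d₂, hd₂, h2⟩ := pInt_almost' (univ : Finset (Fin (Module.finrank ℚ K) × Fin (Module.finrank ℚ K)))
    (fun t => ((M⁻¹ t.1 t.2 : ℚ) : ℂ)) fun t _ => by
      refine (IsFractionRing.isAlgebraic_iff ℤ ℚ ℂ).2 ?_
      exact isAlgebraic_algebraMap (M⁻¹ t.1 t.2)
  refine ⟨d₁ * d₂, Nat.mul_pos hd₁ hd₂, fun p hp hpd β hβ => ?_⟩
  have h1' := h1 p hp fun h => hpd (h.mul_right d₂)
  have h2' := h2 p hp fun h => hpd (h.mul_left d₁)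
  let v : Fin (Module.finrank ℚ K) → ℚ := fun i => Algebra.trace ℚ K (b i * β)
  have hv : ∀ i, ((v i : ℚ) : ℂ) / p ∈ pInt p := by
    intro i
    refine Nil.rat ?_
    have h3 : ((v i : ℚ) : ℂ) = ∑ σ : K →ₐ[ℚ] ℂ, σ β * σ (b i) := by
      have h4 := trace_eq_sum_embeddings (K := ℚ) (L := K) ℂ (x := b i * β)
      rw [eq_ratCast] at h4
      rw [h4]
      refine Finset.sum_congr rfl fun σ _ => ?_
      rw [map_mul, mul_comm]
    rw [h3]
    exact Nil.sum _ fun σ _ => (hβ σ).mul (h1' (σ, i) (mem_univ _))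
  have hMv : M.mulVec (fun j => b.repr β j) = v := by
    funext i
    show ∑ j, M i j * b.repr β j = Algebra.trace ℚ K (b i * β)
    have h3 : b i * β = ∑ j, b.repr β j • (b i * b j) := by
      conv_lhs => rw [← b.sum_repr β]
      rw [Finset.mul_sum]
      exact Finset.sum_congr rfl fun j _ => by rw [mul_smul_comm]
    rw [h3, map_sum]
    refine Finset.sum_congr rfl fun j _ => ?_
    rw [map_smul, smul_eq_mul, mul_comm]
    rfl
  have hc : ∀ j, b.repr β j = ∑ i, M⁻¹ j i * v i := by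
    intro j
    have h3 : M⁻¹.mulVec v = fun j => b.repr β j := by
      rw [← hMv, Matrix.mulVec_mulVec, Matrix.nonsing_inv_mul _ hM, Matrix.one_mulVec]
    exact (congrFun h3 j).symm
  have h4 : τ β / p = ∑ j, (∑ i, ((M⁻¹ j i : ℚ) : ℂ) * (((v i : ℚ) : ℂ) / p)) * τ (b j) := by
    conv_lhs => rw [← b.sum_repr β]
    rw [map_sum, Finset.sum_div]
    refine Finset.sum_congr rfl fun j _ => ?_
    rw [map_smul, hc j]
    have h5 : ((∑ i, M⁻¹ j i * v i : ℚ) • τ (b j) : ℂ) = (∑ i, ((M⁻¹ j i : ℚ) : ℂ) * ((v i : ℚ) : ℂ)) * τ (b j) := by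
      rw [Algebra.smul_def, eq_ratCast]
      push_cast
      rfl
    rw [h5, mul_div_right_comm, Finset.sum_div]
    congr 1
    exact Finset.sum_congr rfl fun i _ => by rw [mul_div_assoc]
  rw [h4]
  exact (pInt p).sum_mem fun j _ => (pInt p).mul_mem ((pInt p).sum_mem fun i _ =>
    (pInt p).mul_mem (h2' (j, i) (mem_univ _)) (hv i)) (h1' (τ, j) (mem_univ _))

lemma map_aeval_int {σ : Type*} {R S : Type*} [CommRing R] [CommRing S] (ψ : R →+* S) (z : σ → R)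
    (f : MvPolynomial σ ℤ) : ψ (aeval z f) = aeval (fun i => ψ (z i)) f := by
  induction f using MvPolynomial.induction_on with
  | C a => rw [aeval_C, aeval_C, eq_intCast, eq_intCast, map_intCast]
  | add f g hf hg => rw [map_add, map_add, map_add, hf, hg]
  | mul_X f i hf => rw [map_mul, map_mul, map_mul, hf, aeval_X, aeval_X]

variable {m : ℕ}

/-- **Almost all primes that are not exceptional are good.** -/
theorem conv {𝓕 : ℕ → Set (MvPolynomial (Fin m) ℤ)} {𝔞 : Ideal (MvPolynomial (Fin m) ℤ)}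
    {g : MvPolynomial (Fin m) ℤ} {ω : Fin m → ℂ} (hω : ∀ i, IsAlgebraic ℚ (ω i))
    (hz : ∀ f ∈ 𝔞, aeval ω f = 0) (hg : aeval ω g ≠ 0) :
    ∃ d : ℕ, 0 < d ∧ ∀ p : ℕ, p.Prime → ¬ p ∣ d → ¬ Non 𝓕 𝔞 g p → Gd 𝓕 p ω := by
  classical
  let K := IntermediateField.adjoin ℚ (Set.range ω)
  have hfd : FiniteDimensional ℚ K := IntermediateField.finiteDimensional_adjoin (by
    rintro _ ⟨i, rfl⟩
    exact (hω i).isIntegral)
  let ξ : Fin m → K := fun i => ⟨ω i, IntermediateField.subset_adjoin _ _ ⟨i, rfl⟩⟩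
  have hval : ∀ f : MvPolynomial (Fin m) ℤ, K.val (aeval ξ f) = aeval ω f := fun f =>
    map_aeval_int (K.val : K →+* ℂ) ξ f
  have hz' : ∀ f ∈ 𝔞, aeval ξ f = 0 := fun f hf => by
    have h4 : K.val (aeval ξ f) = K.val 0 := by rw [hval, map_zero, hz f hf]
    exact K.val.injective h4
  obtain ⟨d₁, hd₁, h1⟩ := pInt_almost' (univ : Finset ((K →ₐ[ℚ] ℂ) × Fin m)) (fun t => t.1 (ξ t.2))
    fun t _ => alg_int t.1 _
  obtain ⟨d₂, hd₂, h2⟩ := pInt_almost' (univ : Finset (K →ₐ[ℚ] ℂ)) (fun σ => σ (aeval ξ g)⁻¹)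
    fun σ _ => alg_int σ _
  obtain ⟨d₃, hd₃, h3⟩ := trace_conv (K.val : K →ₐ[ℚ] ℂ)
  have hg' : aeval ξ g ≠ 0 := fun h => hg (by rw [← hval, h, map_zero])
  refine ⟨d₁ * d₂ * d₃, by positivity, fun p hp hpd hnon => ?_⟩
  have hfact : Fact p.Prime := ⟨hp⟩
  have h1' := h1 p hfact fun h => hpd ((h.mul_right d₂).mul_right d₃)
  have h2' := h2 p hfact fun h => hpd ((h.mul_left d₁).mul_right d₃)
  have h3' := h3 p hfact fun h => hpd (h.mul_left _)
  have hp0 : (p : ℂ) ≠ 0 := by exact_mod_cast hp.ne_zero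
  refine ⟨hfact, fun i => h1' (K.val, i) (mem_univ _), fun F hF => ⟨aeval ω F / p, ?_, by rw [mul_div_cancel₀ _ hp0]⟩⟩
  rw [← hval]
  refine h3' _ fun σ => ?_
  by_contra hnil
  let W : Fin m → pInt p := fun i => ⟨σ (ξ i), h1' (σ, i) (mem_univ _)⟩
  have hW : ∀ f : MvPolynomial (Fin m) ℤ, ((pInt p).subtype (aeval W f) : ℂ) = σ (aeval ξ f) := by
    intro f
    rw [map_aeval_int (pInt p).subtype W f]
    exact (map_aeval_int (σ : K →+* ℂ) ξ f).symm
  obtain ⟨k, i1, i2, φ, hφ⟩ := exists_field (aeval W F) (by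
    have h4 : ((aeval W F : pInt p) : ℂ) = σ (aeval ξ F) := hW F
    rwa [h4])
  refine hnon ⟨k, i1, i2, fun i => φ (W i), fun f hf => ?_, ?_, F, hF, ?_⟩
  · rw [← map_aeval_int φ W f]
    have h4 : aeval W f = 0 := by
      apply (pInt p).subtype_injective
      rw [hW, hz' f hf, map_zero, map_zero]
    rw [h4, map_zero]
  · rw [← map_aeval_int φ W g]
    intro h4
    have h5 : aeval W g * (⟨σ (aeval ξ g)⁻¹, h2' σ (mem_univ _)⟩ : pInt p) = 1 := by
      apply (pInt p).subtype_injective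
      rw [map_mul, hW, map_one]
      show σ (aeval ξ g) * σ (aeval ξ g)⁻¹ = 1
      rw [← map_mul, mul_inv_cancel₀ hg', map_one]
    have h6 := congrArg φ h5
    rw [map_mul, h4, zero_mul, map_one] at h6
    exact zero_ne_one h6
  · rw [← map_aeval_int φ W F]
    exact hφ

end Pool.Agent.H446.AP10
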