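import Mathlib

/-!
# Functions on a variety: a free module over a polynomial ring, up to a denominator
-/

set_option autoImplicit false

namespace Pool.Agent.H446.AP10

open Finset MvPolynomial

/-- The value of a monomial. -/
def mo {m : ℕ} {k : Type*} [CommRing k] (z : Fin m → k) (a : Fin m →₀ ℕ) : k := ∏ i, z i ^ a i

/-- Coordinates `y`, monomials `ε` and the multiplication with the coordinates in terms of them. -/
structure Dat (m : ℕ) where
  d : ℕ
  y : Fin d → Fin m
  hy : Function.Injective y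
  n : ℕ
  ε : Fin n → Fin m →₀ ℕ
  o : Fin n
  ho : ε o = 0
  g : MvPolynomial (Fin d) ℤ
  T : Fin m → Fin n → Fin n → MvPolynomial (Fin d) ℤ

variable {m : ℕ}

/-- The relations hold at `z`. -/
def Dat.On (A : Dat m) {k : Type*} [CommRing k] (z : Fin m → k) : Prop := ∀ i j,
  aeval (z ∘ A.y) A.g * z i * mo z (A.ε j) = ∑ l, aeval (z ∘ A.y) (A.T i j l) * mo z (A.ε l)

/-- The value of a function. -/
noncomputable def Dat.ev (A : Dat m) {k : Type*} [CommRing k] (z : Fin m → k)
    (v : Fin A.n → MvPolynomial (Fin A.d) ℤ) : k := ∑ l, aeval (z ∘ A.y) (v l) * mo z (A.ε l)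

/-- The degree in every variable is at most `D`. -/
def DL {d : ℕ} (D : ℕ) (f : MvPolynomial (Fin d) ℤ) : Prop := ∀ i, degreeOf i f ≤ D

lemma DL.mono {d D D' : ℕ} {f : MvPolynomial (Fin d) ℤ} (h : DL D f) (hD : D ≤ D') : DL D' f :=
  fun i => (h i).trans hD

lemma DL.add {d D : ℕ} {f g : MvPolynomial (Fin d) ℤ} (hf : DL D f) (hg : DL D g) : DL D (f + g) :=
  fun i => (degreeOf_add_le i f g).trans (max_le (hf i) (hg i))

lemma DL.mul {d D D' : ℕ} {f g : MvPolynomial (Fin d) ℤ} (hf : DL D f) (hg : DL D' g) : DL (D + D') (f * g) :=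
  fun i => (degreeOf_mul_le i f g).trans (add_le_add (hf i) (hg i))

lemma DL.zero {d D : ℕ} : DL D (0 : MvPolynomial (Fin d) ℤ) := fun i => by
  rw [degreeOf_zero]
  exact Nat.zero_le _

lemma DL.C {d D : ℕ} (c : ℤ) : DL D (C c : MvPolynomial (Fin d) ℤ) := fun i => by
  rw [degreeOf_C]
  exact Nat.zero_le _

lemma DL.sum {d D : ℕ} {ι : Type*} (s : Finset ι) {f : ι → MvPolynomial (Fin d) ℤ} (h : ∀ i ∈ s, DL D (f i)) :
    DL D (∑ i ∈ s, f i) := by
  classical
  induction s using Finset.induction_on with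
  | empty =>
    rw [sum_empty]
    exact DL.zero
  | insert a s ha ih =>
    rw [sum_insert ha]
    exact (h a (mem_insert_self _ _)).add (ih fun i hi => h i (mem_insert_of_mem hi))

/-- A bound for the degrees. -/
lemma Dat.exists_bound (A : Dat m) : ∃ C : ℕ, 1 ≤ C ∧ DL C A.g ∧ ∀ i j l, DL C (A.T i j l) := by
  classical
  refine ⟨1 + A.g.totalDegree + ∑ i, ∑ j, ∑ l, (A.T i j l).totalDegree, by omega, fun t => ?_, fun i j l t => ?_⟩
  · have := degreeOf_le_totalDegree A.g t
    omega
  · have h1 := degreeOf_le_totalDegree (A.T i j l) t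
    have h2 : (A.T i j l).totalDegree ≤ ∑ l, (A.T i j l).totalDegree :=
      Finset.single_le_sum (f := fun l => (A.T i j l).totalDegree) (fun _ _ => Nat.zero_le _) (mem_univ l)
    have h3 : ∑ l, (A.T i j l).totalDegree ≤ ∑ j, ∑ l, (A.T i j l).totalDegree :=
      Finset.single_le_sum (f := fun j => ∑ l, (A.T i j l).totalDegree) (fun _ _ => Nat.zero_le _) (mem_univ j)
    have h4 : ∑ j, ∑ l, (A.T i j l).totalDegree ≤ ∑ i, ∑ j, ∑ l, (A.T i j l).totalDegree :=
      Finset.single_le_sum (f := fun i => ∑ j, ∑ l, (A.T i j l).totalDegree) (fun _ _ => Nat.zero_le _) (mem_univ i)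
    omega

lemma Dat.ev_smul (A : Dat m) {k : Type*} [CommRing k] (z : Fin m → k) (h : MvPolynomial (Fin A.d) ℤ)
    (v : Fin A.n → MvPolynomial (Fin A.d) ℤ) : A.ev z (fun l => h * v l) = aeval (z ∘ A.y) h * A.ev z v := by
  unfold Dat.ev
  rw [Finset.mul_sum]
  refine Finset.sum_congr rfl fun l _ => ?_
  rw [map_mul, mul_assoc]

lemma Dat.ev_sum (A : Dat m) {k : Type*} [CommRing k] (z : Fin m → k) {ι : Type*} (s : Finset ι)
    (v : ι → Fin A.n → MvPolynomial (Fin A.d) ℤ) : A.ev z (fun l => ∑ i ∈ s, v i l) = ∑ i ∈ s, A.ev z (v i) := by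
  unfold Dat.ev
  rw [Finset.sum_comm]
  refine Finset.sum_congr rfl fun l _ => ?_
  rw [map_sum, Finset.sum_mul]

/-- The multiplication with a coordinate. -/
lemma Dat.ev_T (A : Dat m) {k : Type*} [CommRing k] {z : Fin m → k} (hz : A.On z) (i : Fin m)
    (v : Fin A.n → MvPolynomial (Fin A.d) ℤ) :
    A.ev z (fun l => ∑ j, A.T i j l * v j) = aeval (z ∘ A.y) A.g * z i * A.ev z v := by
  unfold Dat.ev
  have h1 : ∀ l, aeval (z ∘ A.y) (∑ j, A.T i j l * v j) * mo z (A.ε l) =
      ∑ j, aeval (z ∘ A.y) (v j) * (aeval (z ∘ A.y) (A.T i j l) * mo z (A.ε l)) := by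
    intro l
    rw [map_sum, Finset.sum_mul]
    refine Finset.sum_congr rfl fun j _ => ?_
    rw [map_mul]
    ring
  rw [Finset.sum_congr rfl fun l _ => h1 l, Finset.sum_comm, Finset.mul_sum]
  refine Finset.sum_congr rfl fun j _ => ?_
  rw [← Finset.mul_sum, ← hz i j]
  ring

/-- The multiplication with a monomial. -/
lemma Dat.exists_mon (A : Dat m) {C : ℕ} (hg : DL C A.g) (hT : ∀ i j l, DL C (A.T i j l)) (N : ℕ) :
    ∀ a : Fin m →₀ ℕ, a.degree ≤ N → ∃ Φ : (Fin A.n → MvPolynomial (Fin A.d) ℤ) → Fin A.n → MvPolynomial (Fin A.d) ℤ,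
      (∀ v D, (∀ l, DL D (v l)) → ∀ l, DL (C * N + D) (Φ v l)) ∧
      ∀ (k : Type) [CommRing k] (z : Fin m → k), A.On z → ∀ v,
        A.ev z (Φ v) = aeval (z ∘ A.y) A.g ^ N * mo z a * A.ev z v := by
  classical
  induction N with
  | zero =>
    intro a ha
    have h0 : a = 0 := by
      rw [← Finsupp.degree_eq_zero_iff]
      omega
    subst h0
    refine ⟨fun v => v, fun v D hv l => ?_, fun k _ z _ v => ?_⟩
    · rw [mul_zero, zero_add]
      exact hv l
    · unfold mo
      simp
  | succ N ih =>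
    intro a ha
    by_cases h : a.degree ≤ N
    · obtain ⟨Φ, h1, h2⟩ := ih a h
      refine ⟨fun v l => A.g * Φ v l, fun v D hv l => ?_, fun k _ z hz v => ?_⟩
      · have := hg.mul (h1 v D hv l)
        have h3 : C * (N + 1) + D = C + (C * N + D) := by ring
        rw [h3]
        exact this
      · rw [A.ev_smul, h2 k z hz]
        ring
    · have h3 : a ≠ 0 := by
        rintro rfl
        simp at h
      obtain ⟨i, hi⟩ := Finsupp.ne_iff.1 h3
      rw [Finsupp.zero_apply] at hi
      obtain ⟨a', rfl⟩ : ∃ a', a = a' + Finsupp.single i 1 := by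
        refine ⟨a - Finsupp.single i 1, ?_⟩
        rw [tsub_add_cancel_of_le]
        rw [Finsupp.single_le_iff]
        omega
      have h4 : a'.degree ≤ N := by
        rw [map_add, Finsupp.degree_single] at ha
        omega
      obtain ⟨Φ, h1, h2⟩ := ih a' h4
      refine ⟨fun v l => ∑ j, A.T i j l * Φ v j, fun v D hv l => ?_, fun k _ z hz v => ?_⟩
      · have h5 : C * (N + 1) + D = C + (C * N + D) := by ring
        rw [h5]
        exact DL.sum _ fun j _ => (hT i j l).mul (h1 v D hv j)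
      · rw [A.ev_T hz, h2 k z hz]
        have h5 : mo z (a' + Finsupp.single i 1) = mo z a' * z i := by
          unfold mo
          simp only [Finsupp.add_apply, pow_add, Finset.prod_mul_distrib]
          congr 1
          rw [Finset.prod_eq_single i]
          · rw [Finsupp.single_eq_same, pow_one]
          · intro j _ hj
            rw [Finsupp.single_eq_of_ne hj, pow_zero]
          · intro h; exact absurd (mem_univ i) h
        rw [h5]
        ring

/-- **The multiplication with a polynomial.** -/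
lemma Dat.exists_op (A : Dat m) {C : ℕ} (hg : DL C A.g) (hT : ∀ i j l, DL C (A.T i j l)) {N : ℕ}
    (f : MvPolynomial (Fin m) ℤ) (hf : f.totalDegree ≤ N) :
    ∃ Φ : (Fin A.n → MvPolynomial (Fin A.d) ℤ) → Fin A.n → MvPolynomial (Fin A.d) ℤ,
      (∀ v D, (∀ l, DL D (v l)) → ∀ l, DL (C * N + D) (Φ v l)) ∧
      ∀ (k : Type) [CommRing k] (z : Fin m → k), A.On z → ∀ v,
        A.ev z (Φ v) = aeval (z ∘ A.y) A.g ^ N * aeval z f * A.ev z v := by
  classical
  have h1 : ∀ a ∈ f.support, a.degree ≤ N := fun a ha => by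
    have := le_totalDegree ha
    rw [Finsupp.degree_eq_sum]
    rw [Finsupp.sum_fintype _ _ (fun _ => rfl)] at this
    omega
  choose! Φ hΦ1 hΦ2 using fun a (ha : a ∈ f.support) => A.exists_mon hg hT N a (h1 a ha)
  refine ⟨fun v l => ∑ a ∈ f.support, MvPolynomial.C (f.coeff a) * Φ a v l, fun v D hv l => ?_, fun k _ z hz v => ?_⟩
  · refine DL.sum _ fun a ha => ?_
    have h2 := (DL.C (D := 0) (f.coeff a)).mul (hΦ1 a ha v D hv l)
    rwa [zero_add] at h2
  · rw [A.ev_sum z f.support (fun a l => MvPolynomial.C (f.coeff a) * Φ a v l)]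
    have h2 : ∀ a ∈ f.support, A.ev z (fun l => MvPolynomial.C (f.coeff a) * Φ a v l) =
        ((f.coeff a : ℤ) : k) * (aeval (z ∘ A.y) A.g ^ N * mo z a * A.ev z v) := by
      intro a ha
      rw [A.ev_smul, hΦ2 a ha k z hz, aeval_C, eq_intCast]
    rw [Finset.sum_congr rfl h2]
    have h3 : aeval z f = ∑ a ∈ f.support, ((f.coeff a : ℤ) : k) * mo z a := by
      rw [aeval_def, eval₂_eq']
      refine Finset.sum_congr rfl fun a _ => ?_
      rw [eq_intCast]
      rfl
    rw [h3, Finset.mul_sum, Finset.sum_mul]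
    exact Finset.sum_congr rfl fun a _ => by ring

end Pool.Agent.H446.AP10
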