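import Pool.Agent.H446.AP10.Step
import Pool.Agent.H446.AP10.Alg

/-!
# Special ideals and Noetherian induction
-/

set_option autoImplicit false

namespace Pool.Agent.H446.AP10

open Finset MvPolynomial
open Pool.Agent.H446.AP (Orb mm)

variable {m : ℕ}

/-- Outside of the zeros of `g` some function does not vanish on the variety modulo `p`. -/
def Non (𝓕 : ℕ → Set (MvPolynomial (Fin m) ℤ)) (𝔞 : Ideal (MvPolynomial (Fin m) ℤ)) (g : MvPolynomial (Fin m) ℤ)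
    (p : ℕ) : Prop :=
  ∃ (k : Type) (_ : Field k) (_ : CharP k p) (z : Fin m → k), (∀ f ∈ 𝔞, aeval z f = 0) ∧ aeval z g ≠ 0 ∧
    ∃ F ∈ 𝓕 p, aeval z F ≠ 0

/-- Special ideals. -/
def Spl (𝓕 : ℕ → Set (MvPolynomial (Fin m) ℤ)) (𝔞 : Ideal (MvPolynomial (Fin m) ℤ)) : Prop :=
  ∃ g ∉ 𝔞, ∃ C : ℝ, ∀ Q : Finset ℕ, (∀ p ∈ Q, p.Prime ∧ Non 𝓕 𝔞 g p) → ∑ p ∈ Q, Real.log p / p ≤ C

/-- The good parameters. -/
def Gp (𝓕 : ℕ → Set (MvPolynomial (Fin m) ℤ)) (H M : ℝ) : Set (Fin m → ℂ) :=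
  {ω | (∀ i, ∃ P : Polynomial ℤ, Orb P ∧ Real.log (mm P) ≤ P.natDegree * H ∧ Polynomial.aeval (ω i) P = 0) ∧
    ∀ Q : Finset ℕ, (∀ p ∈ Q, p.Prime ∧ ¬ Gd 𝓕 p ω) → ∑ p ∈ Q, Real.log p / p ≤ M}

/-- The relations of a `Dat` as a polynomial. -/
noncomputable def rel (A : Dat m) (i : Fin m) (j : Fin A.n) : MvPolynomial (Fin m) ℤ :=
  rename A.y A.g * X i * monomial (A.ε j) 1 - ∑ l, rename A.y (A.T i j l) * monomial (A.ε l) 1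

lemma aeval_rel (A : Dat m) (i : Fin m) (j : Fin A.n) {k : Type*} [CommRing k] (z : Fin m → k) :
    aeval z (rel A i j) = aeval (z ∘ A.y) A.g * z i * mo z (A.ε j) -
      ∑ l, aeval (z ∘ A.y) (A.T i j l) * mo z (A.ε l) := by
  have h1 : ∀ a : Fin m →₀ ℕ, aeval z (monomial a (1 : ℤ)) = mo z a := by
    intro a
    rw [aeval_monomial, map_one, one_mul, Finsupp.prod_fintype _ _ fun i => pow_zero _]
    rfl
  unfold rel
  rw [map_sub, map_mul, map_mul, map_sum, aeval_rename, aeval_X, h1]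
  congr 1
  refine Finset.sum_congr rfl fun l _ => ?_
  rw [map_mul, aeval_rename, h1]

lemma on_of_rel (A : Dat m) {k : Type*} [CommRing k] {z : Fin m → k} (h : ∀ i j, aeval z (rel A i j) = 0) : A.On z := by
  intro i j
  have h1 := h i j
  rw [aeval_rel] at h1
  exact sub_eq_zero.1 h1

lemma dat_of_hom {𝔞 : Ideal (MvPolynomial (Fin m) ℤ)} {K : Type*} [Field K] (φ : MvPolynomial (Fin m) ℤ →+* K)
    (hφ : ∀ f, φ f = 0 ↔ f ∈ 𝔞) (h0 : ∀ n : ℤ, C n ∈ 𝔞 → n = 0) :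
    ∃ A : Dat m, rename A.y A.g ∉ 𝔞 ∧ (∀ i j, rel A i j ∈ 𝔞) ∧
      ∀ (L : ℕ) (b : Fin A.n × (Fin A.d → Fin L) → ℤ), b ≠ 0 → Rb A b ∉ 𝔞 := by
  classical
  let x : Fin m → K := fun i => φ (X i)
  have hx : ∀ f, aeval x f = φ f := by
    intro f
    have h1 : (aeval x : MvPolynomial (Fin m) ℤ →ₐ[ℤ] K).toRingHom = φ := by
      refine MvPolynomial.ringHom_ext (fun n => ?_) fun i => ?_
      · show aeval x (C n) = φ (C n)
        rw [aeval_C, eq_intCast]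
        have h2 : (C n : MvPolynomial (Fin m) ℤ) = (n : MvPolynomial (Fin m) ℤ) := by
          rw [← eq_intCast C n]
        rw [h2, map_intCast]
      · show aeval x (X i) = φ (X i)
        rw [aeval_X]
    exact congrArg (fun g : MvPolynomial (Fin m) ℤ →+* K => g f) h1
  have hchar : CharZero K := by
    refine charZero_of_injective_algebraMap (R := ℤ) ?_
    rw [injective_iff_map_eq_zero]
    intro n hn
    refine h0 n ((hφ _).1 ?_)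
    rw [← hx, aeval_C]
    exact hn
  obtain ⟨A, h1, h2, h3⟩ := exists_dat x
  refine ⟨A, fun h => h1 ?_, fun i j => (hφ _).1 ?_, fun L b hb h => ?_⟩
  · rw [← aeval_rename, hx, (hφ _).2 h]
  · rw [← hx, aeval_rel, sub_eq_zero]
    exact h2 i j
  · have h4 := (hφ _).2 h
    rw [← hx, aeval_Rb, EV_apply] at h4
    refine h3 _ ?_ h4
    intro h5
    apply hb
    funext t
    have h6 := congrFun h5 t.1
    have h7 := congrArg (MvPolynomial.coeff (toF t.2)) h6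
    rw [coeff_pol] at h7
    exact h7

/-- The data of a prime ideal without integers. -/
lemma exists_dat_of_prime {𝔞 : Ideal (MvPolynomial (Fin m) ℤ)} (hp : 𝔞.IsPrime) (h0 : ∀ n : ℤ, C n ∈ 𝔞 → n = 0) :
    ∃ A : Dat m, rename A.y A.g ∉ 𝔞 ∧ (∀ i j, rel A i j ∈ 𝔞) ∧
      ∀ (L : ℕ) (b : Fin A.n × (Fin A.d → Fin L) → ℤ), b ≠ 0 → Rb A b ∉ 𝔞 := by
  have hdom : IsDomain (MvPolynomial (Fin m) ℤ ⧸ 𝔞) := Ideal.Quotient.isDomain 𝔞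
  refine dat_of_hom ((algebraMap (MvPolynomial (Fin m) ℤ ⧸ 𝔞) (FractionRing (MvPolynomial (Fin m) ℤ ⧸ 𝔞))).comp
    (Ideal.Quotient.mk 𝔞)) (fun f => ?_) h0
  rw [← Ideal.Quotient.eq_zero_iff_mem]
  show algebraMap (MvPolynomial (Fin m) ℤ ⧸ 𝔞) (FractionRing (MvPolynomial (Fin m) ℤ ⧸ 𝔞))
    (Ideal.Quotient.mk 𝔞 f) = 0 ↔ _
  rw [map_eq_zero_iff _ (IsFractionRing.injective (MvPolynomial (Fin m) ℤ ⧸ 𝔞)
    (FractionRing (MvPolynomial (Fin m) ℤ ⧸ 𝔞)))]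

/-- **The exceptional primes of a variety with a dense set of good parameters.** -/
theorem dense {c : ℕ} {𝓕 : ℕ → Set (MvPolynomial (Fin m) ℤ)} (h𝓕 : ∀ p, ∀ F ∈ 𝓕 p, F.totalDegree ≤ c * p)
    {𝔞 : Ideal (MvPolynomial (Fin m) ℤ)} (hp : 𝔞.IsPrime) (h0 : ∀ n : ℤ, C n ∈ 𝔞 → n = 0) :
    ∃ g ∉ 𝔞, ∃ T₀ : ℝ, ∀ H M : ℝ, 0 ≤ H → 0 ≤ M →
      (∀ R, (∀ ω ∈ Gp 𝓕 H M, (∀ f ∈ 𝔞, aeval ω f = 0) → aeval ω R = 0) → R ∈ 𝔞) →
      ∀ Q : Finset ℕ, (∀ p ∈ Q, p.Prime ∧ Non 𝓕 𝔞 g p) → ∑ p ∈ Q, Real.log p / p ≤ T₀ * (H + M + 1) := by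
  classical
  obtain ⟨A, h1, h2, h3⟩ := exists_dat_of_prime hp h0
  obtain ⟨T₀, hT₀⟩ := step A h𝓕
  refine ⟨rename A.y A.g, h1, T₀, fun H M hH hM hdense Q hQ => ?_⟩
  by_contra hlt
  push Not at hlt
  obtain ⟨L, b, hb, h4⟩ := hT₀ H M hH hM Q (fun p hp => by
    refine ⟨(hQ p hp).1, ?_⟩
    obtain ⟨k, i1, i2, z, hz, hgz, hF⟩ := (hQ p hp).2
    refine ⟨k, i1, i2, z, on_of_rel A fun i j => hz _ (h2 i j), ?_, hF⟩
    rwa [aeval_rename] at hgz) hlt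
  refine h3 L b hb (hdense _ fun ω hω hz => ?_)
  obtain ⟨hω1, hω2⟩ := hω
  choose P hP using hω1
  exact h4 ω P hP hω2 (on_of_rel A fun i j => hz _ (h2 i j))

lemma Gp_mono {𝓕 : ℕ → Set (MvPolynomial (Fin m) ℤ)} {H M H' M' : ℝ} (hH : H ≤ H') (hM : M ≤ M') :
    Gp 𝓕 H M ⊆ Gp 𝓕 H' M' := by
  rintro ω ⟨h1, h2⟩
  refine ⟨fun i => ?_, fun Q hQ => (h2 Q hQ).trans hM⟩
  obtain ⟨P, h3, h4, h5⟩ := h1 i
  exact ⟨P, h3, h4.trans (mul_le_mul_of_nonneg_left hH (Nat.cast_nonneg _)), h5⟩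

lemma closure_aux (T : Set (Fin m → ℂ)) (I : Ideal (MvPolynomial (Fin m) ℤ)) :
    ∃ S : Set (Ideal (MvPolynomial (Fin m) ℤ)), S.Finite ∧
      (∀ 𝔞 ∈ S, 𝔞.IsPrime ∧ ∀ R, (∀ ω ∈ T, (∀ f ∈ 𝔞, aeval ω f = 0) → aeval ω R = 0) → R ∈ 𝔞) ∧
      ∀ ω ∈ T, (∀ f ∈ I, aeval ω f = 0) → ∃ 𝔞 ∈ S, ∀ f ∈ 𝔞, aeval ω f = 0 := by
  classical
  induction I using WellFoundedGT.induction with
  | ind I ih =>
  have hadd : ∀ (f : MvPolynomial (Fin m) ℤ) (ω : Fin m → ℂ), (∀ f ∈ I, aeval ω f = 0) → aeval ω f = 0 →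
      ∀ h ∈ I ⊔ Ideal.span {f}, aeval ω h = 0 := by
    intro f ω h1 h2 h hh
    have h3 : I ⊔ Ideal.span {f} ≤ RingHom.ker (aeval ω : MvPolynomial (Fin m) ℤ →ₐ[ℤ] ℂ) := by
      refine sup_le (fun a ha => ?_) ?_
      · rw [RingHom.mem_ker]
        exact h1 a ha
      · rw [Ideal.span_le, Set.singleton_subset_iff]
        exact h2
    exact h3 hh
  have hlt : ∀ f, f ∉ I → I < I ⊔ Ideal.span {f} := by
    intro f hf
    refine lt_of_le_of_ne le_sup_left fun h => hf ?_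
    rw [h]
    exact Ideal.mem_sup_right (Ideal.mem_span_singleton_self f)
  by_cases htop : I = ⊤
  · refine ⟨∅, Set.finite_empty, fun 𝔞 h => absurd h (Set.notMem_empty _), fun ω _ h => ?_⟩
    have h1 := h 1 (by rw [htop]; exact Submodule.mem_top)
    rw [map_one] at h1
    exact absurd h1 one_ne_zero
  by_cases hprime : I.IsPrime
  · by_cases hd : ∀ R, (∀ ω ∈ T, (∀ f ∈ I, aeval ω f = 0) → aeval ω R = 0) → R ∈ I
    · exact ⟨{I}, Set.finite_singleton _, fun 𝔞 h => by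
        rw [Set.mem_singleton_iff] at h
        rw [h]
        exact ⟨hprime, hd⟩, fun ω _ h => ⟨I, rfl, h⟩⟩
    · push Not at hd
      obtain ⟨R, hall, hR⟩ := hd
      obtain ⟨S, hS1, hS2, hS3⟩ := ih _ (hlt R hR)
      exact ⟨S, hS1, hS2, fun ω hω h => hS3 ω hω (hadd R ω h (hall ω hω h))⟩
  · obtain ⟨f, hf, g, hg, hfg⟩ : ∃ f, f ∉ I ∧ ∃ g, g ∉ I ∧ f * g ∈ I := by
      by_contra h
      push Not at h
      refine hprime ⟨htop, fun {f g} hfg => ?_⟩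
      by_contra h1
      push Not at h1
      exact h f h1.1 g h1.2 hfg
    obtain ⟨S, hS1, hS2, hS3⟩ := ih _ (hlt f hf)
    obtain ⟨S', hS1', hS2', hS3'⟩ := ih _ (hlt g hg)
    refine ⟨S ∪ S', hS1.union hS1', fun 𝔞 h => h.elim (hS2 𝔞) (hS2' 𝔞), fun ω hω h => ?_⟩
    have h1 := h _ hfg
    rw [map_mul] at h1
    rcases mul_eq_zero.1 h1 with h2 | h2
    · obtain ⟨𝔞, h3, h4⟩ := hS3 ω hω (hadd f ω h h2)
      exact ⟨𝔞, Or.inl h3, h4⟩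
    · obtain ⟨𝔞, h3, h4⟩ := hS3' ω hω (hadd g ω h h2)
      exact ⟨𝔞, Or.inr h3, h4⟩

/-- **The Zariski closure of a set of complex points.** -/
theorem closure_finite (T : Set (Fin m → ℂ)) : ∃ S : Set (Ideal (MvPolynomial (Fin m) ℤ)), S.Finite ∧
      (∀ 𝔞 ∈ S, 𝔞.IsPrime ∧ (∃ ω ∈ T, ∀ f ∈ 𝔞, aeval ω f = 0) ∧ (∀ n : ℤ, C n ∈ 𝔞 → n = 0) ∧
        ∀ R, (∀ ω ∈ T, (∀ f ∈ 𝔞, aeval ω f = 0) → aeval ω R = 0) → R ∈ 𝔞) ∧
      ∀ ω ∈ T, ∃ 𝔞 ∈ S, ∀ f ∈ 𝔞, aeval ω f = 0 := by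
  obtain ⟨S, h1, h2, h3⟩ := closure_aux T ⊥
  refine ⟨S, h1, fun 𝔞 h𝔞 => ?_, fun ω hω => h3 ω hω fun f hf => by
    rw [Ideal.mem_bot] at hf
    rw [hf, map_zero]⟩
  obtain ⟨hp, hd⟩ := h2 𝔞 h𝔞
  have hne : ∃ ω ∈ T, ∀ f ∈ 𝔞, aeval ω f = 0 := by
    by_contra h
    push Not at h
    refine hp.ne_top ((Ideal.eq_top_iff_one _).2 (hd 1 fun ω hω hz => ?_))
    obtain ⟨f, hf, hf'⟩ := h ω hω
    exact absurd (hz f hf) hf'
  refine ⟨hp, hne, fun n hn => ?_, hd⟩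
  obtain ⟨ω, -, hz⟩ := hne
  have h4 := hz _ hn
  rw [aeval_C, eq_intCast] at h4
  exact_mod_cast h4

end Pool.Agent.H446.AP10
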