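import Pool.Agent.H446.AP4.Curv
import Pool.Agent.H446.AP10.Noe

/-!
# The degrees of the curvatures of a family
-/

set_option autoImplicit false

namespace Pool.Agent.H446.AP10

open Finset Polynomial
open Pool.Agent.H446.AP4 (curv curv_succ map_curv)

variable {σ : Type*}

/-- The total degrees of the coefficients are at most `D`. -/
def TD (D : ℕ) (f : (MvPolynomial σ ℤ)[X]) : Prop := ∀ l, (f.coeff l).totalDegree ≤ D

lemma TD.mono {D D' : ℕ} {f : (MvPolynomial σ ℤ)[X]} (h : TD D f) (hD : D ≤ D') : TD D' f := fun l => (h l).trans hD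

lemma TD.zero {D : ℕ} : TD D (0 : (MvPolynomial σ ℤ)[X]) := fun l => by
  rw [coeff_zero, MvPolynomial.totalDegree_zero]
  exact Nat.zero_le _

lemma TD.one {D : ℕ} : TD D (1 : (MvPolynomial σ ℤ)[X]) := fun l => by
  rw [coeff_one]
  split_ifs
  · rw [MvPolynomial.totalDegree_one]
    exact Nat.zero_le _
  · rw [MvPolynomial.totalDegree_zero]
    exact Nat.zero_le _

lemma TD.add {D : ℕ} {f g : (MvPolynomial σ ℤ)[X]} (hf : TD D f) (hg : TD D g) : TD D (f + g) := fun l => by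
  rw [coeff_add]
  exact (MvPolynomial.totalDegree_add _ _).trans (max_le (hf l) (hg l))

lemma TD.neg {D : ℕ} {f : (MvPolynomial σ ℤ)[X]} (hf : TD D f) : TD D (-f) := fun l => by
  rw [coeff_neg, MvPolynomial.totalDegree_neg]
  exact hf l

lemma TD.sub {D : ℕ} {f g : (MvPolynomial σ ℤ)[X]} (hf : TD D f) (hg : TD D g) : TD D (f - g) := by
  rw [sub_eq_add_neg]
  exact hf.add hg.neg

lemma TD.mul {D D' : ℕ} {f g : (MvPolynomial σ ℤ)[X]} (hf : TD D f) (hg : TD D' g) : TD (D + D') (f * g) := fun l => by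
  rw [coeff_mul]
  refine MvPolynomial.totalDegree_finsetSum_le fun x _ => ?_
  exact (MvPolynomial.totalDegree_mul _ _).trans (add_le_add (hf _) (hg _))

lemma TD.sum {D : ℕ} {ι : Type*} (s : Finset ι) {f : ι → (MvPolynomial σ ℤ)[X]} (h : ∀ i ∈ s, TD D (f i)) :
    TD D (∑ i ∈ s, f i) := fun l => by
  rw [finsetSum_coeff]
  exact MvPolynomial.totalDegree_finsetSum_le fun i hi => h i hi l

lemma totalDegree_natCast (n : ℕ) : ((n : MvPolynomial σ ℤ)).totalDegree = 0 := by
  have h : (n : MvPolynomial σ ℤ) = MvPolynomial.C (n : ℤ) := by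
    rw [map_natCast]
  rw [h, MvPolynomial.totalDegree_C]

lemma TD.natCast (n : ℕ) {D : ℕ} : TD D (n : (MvPolynomial σ ℤ)[X]) := fun l => by
  rw [← C_eq_natCast, coeff_C]
  split_ifs
  · rw [totalDegree_natCast]
    exact Nat.zero_le _
  · rw [MvPolynomial.totalDegree_zero]
    exact Nat.zero_le _

lemma TD.derivative {D : ℕ} {f : (MvPolynomial σ ℤ)[X]} (hf : TD D f) : TD D (derivative f) := fun l => by
  rw [coeff_derivative]
  have h : ((l : MvPolynomial σ ℤ) + 1) = ((l + 1 : ℕ) : MvPolynomial σ ℤ) := by push_cast; ring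
  rw [h]
  refine (MvPolynomial.totalDegree_mul _ _).trans ?_
  rw [totalDegree_natCast, add_zero]
  exact hf _

lemma exists_TD (f : (MvPolynomial σ ℤ)[X]) : ∃ D, TD D f := by
  refine ⟨∑ l ∈ range (f.natDegree + 1), (f.coeff l).totalDegree, fun l => ?_⟩
  by_cases h : l ∈ range (f.natDegree + 1)
  · exact Finset.single_le_sum (f := fun l => (f.coeff l).totalDegree) (fun _ _ => Nat.zero_le _) h
  · rw [mem_range, not_lt] at h
    rw [coeff_eq_zero_of_natDegree_lt (by omega), MvPolynomial.totalDegree_zero]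
    exact Nat.zero_le _

lemma exists_TD' {r : ℕ} (Δ : (MvPolynomial σ ℤ)[X]) (B : Matrix (Fin r) (Fin r) (MvPolynomial σ ℤ)[X]) :
    ∃ D, TD D Δ ∧ ∀ i j, TD D (B i j) := by
  obtain ⟨D, hD⟩ := exists_TD Δ
  choose E hE using fun i j => exists_TD (B i j)
  refine ⟨D + ∑ i, ∑ j, E i j, hD.mono (Nat.le_add_right _ _), fun i j => (hE i j).mono ?_⟩
  have h1 : E i j ≤ ∑ j, E i j := Finset.single_le_sum (f := fun j => E i j) (fun _ _ => Nat.zero_le _) (mem_univ j)
  have h2 : ∑ j, E i j ≤ ∑ i, ∑ j, E i j :=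
    Finset.single_le_sum (f := fun i => ∑ j, E i j) (fun _ _ => Nat.zero_le _) (mem_univ i)
  omega

variable {r : ℕ}

lemma TD_curv {D : ℕ} {Δ : (MvPolynomial σ ℤ)[X]} {B : Matrix (Fin r) (Fin r) (MvPolynomial σ ℤ)[X]}
    (hΔ : TD D Δ) (hB : ∀ i j, TD D (B i j)) (k : ℕ) :
    ∀ i j, TD (D * k) (curv (fun f => Polynomial.derivative f) Δ B k i j) := by
  induction k with
  | zero =>
    intro i j
    show TD (D * 0) ((1 : Matrix (Fin r) (Fin r) (MvPolynomial σ ℤ)[X]) i j)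
    rw [Matrix.one_apply]
    split_ifs
    · exact TD.one
    · exact TD.zero
  | succ k ih =>
    intro i j
    rw [curv_succ, Matrix.mul_apply]
    refine ((TD.mono (hΔ.mul (ih i j).derivative) ?_).sub (TD.mono (((TD.natCast (D := 0) k).mul hΔ.derivative).mul (ih i j)) ?_)).add
      (TD.sum _ fun l _ => TD.mono ((hB i l).mul (ih l j)) ?_)
    · rw [Nat.mul_succ]; omega
    · rw [Nat.mul_succ]; omega
    · rw [Nat.mul_succ]; omega

lemma TD_pow {D : ℕ} {M : Matrix (Fin r) (Fin r) (MvPolynomial σ ℤ)[X]} (hM : ∀ i j, TD D (M i j)) (q : ℕ) :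
    ∀ i j, TD (D * q) ((M ^ q) i j) := by
  induction q with
  | zero =>
    intro i j
    rw [pow_zero, Matrix.one_apply]
    split_ifs
    · exact TD.one
    · exact TD.zero
  | succ q ih =>
    intro i j
    rw [pow_succ, Matrix.mul_apply]
    refine TD.sum _ fun l _ => TD.mono ((ih i l).mul (hM l j)) ?_
    rw [Nat.mul_succ]

/-- The coefficients of the powers of the curvatures. -/
def FF (Δ : (MvPolynomial σ ℤ)[X]) (B : Matrix (Fin r) (Fin r) (MvPolynomial σ ℤ)[X]) (q p : ℕ) :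
    Set (MvPolynomial σ ℤ) :=
  {F | ∃ i j l, F = ((curv (fun f => Polynomial.derivative f) Δ B p ^ q) i j).coeff l}

lemma FF_degree (Δ : (MvPolynomial σ ℤ)[X]) (B : Matrix (Fin r) (Fin r) (MvPolynomial σ ℤ)[X]) (q : ℕ) :
    ∃ c : ℕ, ∀ p, ∀ F ∈ FF Δ B q p, F.totalDegree ≤ c * p := by
  obtain ⟨D, hΔ, hB⟩ := exists_TD' Δ B
  refine ⟨D * q, fun p F hF => ?_⟩
  obtain ⟨i, j, l, rfl⟩ := hF
  have h1 := TD_pow (TD_curv hΔ hB p) q i j l
  calc _ ≤ D * p * q := h1
    _ = _ := by ring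

/-- The member. -/
noncomputable def cvAt (Δ : (MvPolynomial σ ℤ)[X]) (B : Matrix (Fin r) (Fin r) (MvPolynomial σ ℤ)[X])
    {k : Type*} [CommRing k] (φ : MvPolynomial σ ℤ →+* k) (p : ℕ) : Matrix (Fin r) (Fin r) k[X] :=
  curv (fun f => Polynomial.derivative f) (Δ.map φ) (B.map fun f => f.map φ) p

lemma cvAt_pow (Δ : (MvPolynomial σ ℤ)[X]) (B : Matrix (Fin r) (Fin r) (MvPolynomial σ ℤ)[X])
    {k : Type*} [CommRing k] (φ : MvPolynomial σ ℤ →+* k) (p q : ℕ) (i j : Fin r) (l : ℕ) :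
    ((cvAt Δ B φ p ^ q) i j).coeff l = φ (((curv (fun f => Polynomial.derivative f) Δ B p ^ q) i j).coeff l) := by
  have h1 : cvAt Δ B φ p = (curv (fun f => Polynomial.derivative f) Δ B p).map (mapRingHom φ) := by
    rw [map_curv (mapRingHom φ) (δ := fun f => Polynomial.derivative f) (δ' := fun f => Polynomial.derivative f)
      (fun f => (derivative_map f φ).symm)]
    rfl
  have h2 : cvAt Δ B φ p ^ q = (curv (fun f => Polynomial.derivative f) Δ B p ^ q).map (mapRingHom φ) := by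
    rw [h1]
    exact (map_pow (mapRingHom φ).mapMatrix _ q).symm
  rw [h2, Matrix.map_apply, coe_mapRingHom, coeff_map]

end Pool.Agent.H446.AP10
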