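import Mathlib

/-!
# Small integer vectors in intersections of congruence classes
-/

set_option autoImplicit false

namespace Pool.Agent.H446.AP10

open Finset

/-- Vectors `t_j` with entries in `[0, p)` are determined by `∑ p ^ (k - j) φ_j (t_j)` modulo `p ^ k`. -/
lemma eq_of_sum {ι : Type*} {p : ℕ} (hp : 0 < p) {κ : ℕ → Type*} (φ : (j : ℕ) → (κ j → ℤ) →+ (ι → ℤ))
    (hφ : ∀ j, ∀ h, (∀ i, (p : ℤ) ∣ φ j h i) → ∀ i, (p : ℤ) ∣ h i) (k : ℕ) (t : (j : ℕ) → κ j → ℤ)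
    (ht : ∀ j ∈ range k, ∀ i, |t (j + 1) i| < p)
    (hsum : ∀ i, (p : ℤ) ^ k ∣ (∑ j ∈ range k, (p : ℤ) ^ (k - (j + 1)) • φ (j + 1) (t (j + 1))) i) :
    ∀ j ∈ range k, t (j + 1) = 0 := by
  induction k with
  | zero => intro j hj; exact absurd hj (by simp)
  | succ k ih =>
    have h0 : t (k + 1) = 0 := by
      have h1 : ∀ i, (p : ℤ) ∣ φ (k + 1) (t (k + 1)) i := by
        intro i
        have h2 := hsum i
        rw [sum_range_succ, Pi.add_apply, Nat.sub_self, pow_zero, one_smul, Finset.sum_apply] at h2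
        have h3 : (p : ℤ) ∣ ∑ j ∈ range k, ((p : ℤ) ^ (k + 1 - (j + 1)) • φ (j + 1) (t (j + 1))) i := by
          refine Finset.dvd_sum fun j hj => ?_
          rw [mem_range] at hj
          rw [Pi.smul_apply, smul_eq_mul]
          exact Dvd.dvd.mul_right (dvd_pow_self _ (by omega)) _
        exact (dvd_add_right h3).1 ((dvd_pow_self (p : ℤ) (Nat.succ_ne_zero k)).trans h2)
      have h2 := hφ (k + 1) _ h1
      funext i
      have h3 := ht k (self_mem_range_succ k) i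
      exact Int.eq_zero_of_abs_lt_dvd (h2 i) h3
    have h1 : ∀ i, (p : ℤ) ^ k ∣ (∑ j ∈ range k, (p : ℤ) ^ (k - (j + 1)) • φ (j + 1) (t (j + 1))) i := by
      intro i
      have h2 := hsum i
      rw [sum_range_succ, h0, map_zero, smul_zero, add_zero] at h2
      have h3 : (∑ j ∈ range k, (p : ℤ) ^ (k + 1 - (j + 1)) • φ (j + 1) (t (j + 1))) i =
          (p : ℤ) * (∑ j ∈ range k, (p : ℤ) ^ (k - (j + 1)) • φ (j + 1) (t (j + 1))) i := by
        rw [Finset.sum_apply, Finset.sum_apply, Finset.mul_sum]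
        refine Finset.sum_congr rfl fun j hj => ?_
        rw [mem_range] at hj
        rw [Pi.smul_apply, Pi.smul_apply, smul_eq_mul, smul_eq_mul, ← mul_assoc, ← pow_succ']
        congr 2
        omega
      rw [h3, pow_succ'] at h2
      exact (mul_dvd_mul_iff_left (by exact_mod_cast hp.ne')).1 h2
    intro j hj
    rcases Nat.lt_succ_iff_lt_or_eq.1 (mem_range.1 hj) with h | h
    · exact ih (fun j hj => ht j (mem_range.2 (by have := mem_range.1 hj; omega))) h1 j (mem_range.2 h)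
    · rw [h]
      exact h0

/-- **Small vectors in congruence classes.** -/
theorem pigeon {ι : Type} [Fintype ι] (Q : Finset ℕ) (hQ : ∀ p ∈ Q, 0 < p) (k : ℕ → ℕ)
    (κ : ℕ → ℕ → Type) [∀ p j, Fintype (κ p j)] (φ : (p j : ℕ) → (κ p j → ℤ) →+ (ι → ℤ))
    (hφ : ∀ p ∈ Q, ∀ j, ∀ h, (∀ i, (p : ℤ) ∣ φ p j h i) → ∀ i, (p : ℤ) ∣ h i) (B : ℕ)
    (hB : ∏ p ∈ Q, p ^ (k p * Fintype.card ι) <
      (B + 1) ^ Fintype.card ι * ∏ p ∈ Q, p ^ (∑ j ∈ range (k p), Fintype.card (κ p (j + 1)))) :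
    ∃ b : ι → ℤ, b ≠ 0 ∧ (∀ i, |b i| ≤ B) ∧ ∀ p ∈ Q, ∃ (h : (j : ℕ) → κ p j → ℤ) (u : ι → ℤ),
      b = ∑ j ∈ range (k p), (p : ℤ) ^ (k p - (j + 1)) • φ p (j + 1) (h (j + 1)) + (p : ℤ) ^ k p • u := by
  classical
  have hne : ∀ p : Q, NeZero (p : ℕ) := fun p => ⟨(hQ p p.2).ne'⟩
  have hne' : ∀ p : Q, NeZero ((p : ℕ) ^ k p) := fun p => ⟨pow_ne_zero _ (hQ p p.2).ne'⟩
  let S := (ι → Fin (B + 1)) × ((p : Q) → (j : Fin (k p)) → κ p (j + 1) → Fin p)
  let T := (p : Q) → ι → ZMod ((p : ℕ) ^ k p)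
  -- the lift of the second component
  let tt : ((p : Q) → (j : Fin (k p)) → κ p (j + 1) → Fin p) → (p : Q) → (j : ℕ) → κ p j → ℤ :=
    fun t p j => match j with
      | 0 => 0
      | j + 1 => if h : j < k p then fun i => ((t p ⟨j, h⟩ i : ℕ) : ℤ) else 0
  let F : S → (p : Q) → ι → ℤ := fun s p i => ((s.1 i : ℕ) : ℤ) +
    (∑ j ∈ range (k p), ((p : ℕ) : ℤ) ^ (k p - (j + 1)) • φ p (j + 1) (tt s.2 p (j + 1))) i
  let f : S → T := fun s p i => ((F s p i : ℤ) : ZMod ((p : ℕ) ^ k p))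
  have hcard : Fintype.card T < Fintype.card S := by
    have h1 : Fintype.card T = ∏ p ∈ Q, p ^ (k p * Fintype.card ι) := by
      rw [Fintype.card_pi, ← Finset.prod_coe_sort Q]
      refine Finset.prod_congr rfl fun p _ => ?_
      rw [Fintype.card_pi, Finset.prod_const, ZMod.card, card_univ, pow_mul]
    have h2 : Fintype.card S = (B + 1) ^ Fintype.card ι *
        ∏ p ∈ Q, p ^ (∑ j ∈ range (k p), Fintype.card (κ p (j + 1))) := by
      rw [Fintype.card_prod, Fintype.card_pi, Finset.prod_const, Fintype.card_fin, card_univ, Fintype.card_pi,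
        ← Finset.prod_coe_sort Q]
      congr 1
      refine Finset.prod_congr rfl fun p _ => ?_
      rw [Fintype.card_pi, ← Finset.prod_pow_eq_pow_sum, ← Fin.prod_univ_eq_prod_range
        (fun j => (p : ℕ) ^ Fintype.card (κ p (j + 1)))]
      refine Finset.prod_congr rfl fun j _ => ?_
      rw [Fintype.card_pi, Finset.prod_const, Fintype.card_fin, card_univ]
    rw [h1, h2]
    exact hB
  obtain ⟨s, s', hss, hf⟩ := Fintype.exists_ne_map_eq_of_card_lt f hcard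
  have hF : ∀ (p : Q) (i : ι), (((p : ℕ) : ℤ) ^ k p) ∣ F s p i - F s' p i := by
    intro p i
    have h1 := congrFun (congrFun hf p) i
    have h2 : ((F s p i - F s' p i : ℤ) : ZMod ((p : ℕ) ^ k p)) = 0 := by
      rw [Int.cast_sub]
      exact sub_eq_zero.2 h1
    rw [ZMod.intCast_zmod_eq_zero_iff_dvd] at h2
    push_cast at h2
    exact h2
  -- the differences
  let b : ι → ℤ := fun i => ((s.1 i : ℕ) : ℤ) - ((s'.1 i : ℕ) : ℤ)
  have hbt : ∀ (p : Q) (i : ι), F s p i - F s' p i = b i + (∑ j ∈ range (k p),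
      ((p : ℕ) : ℤ) ^ (k p - (j + 1)) • φ p (j + 1) (tt s.2 p (j + 1) - tt s'.2 p (j + 1))) i := by
    intro p i
    have h1 : (∑ j ∈ range (k p),
        ((p : ℕ) : ℤ) ^ (k p - (j + 1)) • φ p (j + 1) (tt s.2 p (j + 1) - tt s'.2 p (j + 1))) =
        (∑ j ∈ range (k p), ((p : ℕ) : ℤ) ^ (k p - (j + 1)) • φ p (j + 1) (tt s.2 p (j + 1))) -
        (∑ j ∈ range (k p), ((p : ℕ) : ℤ) ^ (k p - (j + 1)) • φ p (j + 1) (tt s'.2 p (j + 1))) := by
      rw [← Finset.sum_sub_distrib]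
      exact Finset.sum_congr rfl fun j _ => by rw [map_sub, smul_sub]
    rw [h1, Pi.sub_apply]
    show _ + _ - (_ + _) = _ - _ + (_ - _)
    ring
  refine ⟨b, ?_, ?_, ?_⟩
  · intro hb
    apply hss
    have h1 : s.1 = s'.1 := by
      funext i
      have h2 := congrFun hb i
      have h3 : ((s.1 i : ℕ) : ℤ) - ((s'.1 i : ℕ) : ℤ) = 0 := h2
      apply Fin.ext
      omega
    refine Prod.ext h1 ?_
    funext p j i
    have h2 := eq_of_sum (hQ p p.2) (φ p) (hφ p p.2) (k p) (fun j => tt s.2 p j - tt s'.2 p j) (by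
      intro j hj i
      rw [mem_range] at hj
      have h3 : ∀ t : (p : Q) → (j : Fin (k p)) → κ p (j + 1) → Fin p, tt t p (j + 1) i =
          ((t p ⟨j, hj⟩ i : ℕ) : ℤ) := by
        intro t
        have h6 : tt t p (j + 1) = if h : j < k p then (fun i => ((t p ⟨j, h⟩ i : ℕ) : ℤ)) else
          (0 : κ p (j + 1) → ℤ) := rfl
        rw [h6, dif_pos hj]
      rw [Pi.sub_apply, h3, h3, abs_lt]
      have h4 := (s.2 p ⟨j, hj⟩ i).2
      have h5 := (s'.2 p ⟨j, hj⟩ i).2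
      constructor <;> omega) (by
      intro i
      have h3 := hF p i
      rw [hbt p i, hb, Pi.zero_apply, zero_add] at h3
      exact h3) j (mem_range.2 j.2)
    have h3 := congrFun h2 i
    have h4 : ∀ t : (p : Q) → (j : Fin (k p)) → κ p (j + 1) → Fin p, tt t p (j + 1) i =
        ((t p j i : ℕ) : ℤ) := by
      intro t
      have h6 : tt t p (j + 1) = if h : (j : ℕ) < k p then (fun i => ((t p ⟨j, h⟩ i : ℕ) : ℤ)) else
        (0 : κ p (j + 1) → ℤ) := rfl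
      rw [h6, dif_pos j.2]
    rw [Pi.sub_apply, h4, h4, Pi.zero_apply] at h3
    apply Fin.ext
    omega
  · intro i
    have h1 := (s.1 i).2
    have h2 := (s'.1 i).2
    show |((s.1 i : ℕ) : ℤ) - ((s'.1 i : ℕ) : ℤ)| ≤ B
    rw [abs_le]
    constructor <;> omega
  · intro p hp
    have h1 := hF ⟨p, hp⟩
    choose u hu using h1
    refine ⟨fun j => tt s'.2 ⟨p, hp⟩ j - tt s.2 ⟨p, hp⟩ j, u, ?_⟩
    funext i
    have h2 := hbt ⟨p, hp⟩ i
    have h3 : (∑ j ∈ range (k p),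
        (p : ℤ) ^ (k p - (j + 1)) • φ p (j + 1) (tt s'.2 ⟨p, hp⟩ (j + 1) - tt s.2 ⟨p, hp⟩ (j + 1))) =
        -(∑ j ∈ range (k p),
        (p : ℤ) ^ (k p - (j + 1)) • φ p (j + 1) (tt s.2 ⟨p, hp⟩ (j + 1) - tt s'.2 ⟨p, hp⟩ (j + 1))) := by
      rw [← Finset.sum_neg_distrib]
      refine Finset.sum_congr rfl fun j _ => ?_
      rw [← smul_neg, ← map_neg, neg_sub]
    rw [Pi.add_apply, h3, Pi.neg_apply, Pi.smul_apply, smul_eq_mul]
    rw [hu i] at h2
    have h4 : ((((⟨p, hp⟩ : Q) : ℕ) : ℤ) ^ k p * u i) = b i + (∑ j ∈ range (k p),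
      (p : ℤ) ^ (k p - (j + 1)) • φ p (j + 1) (tt s.2 ⟨p, hp⟩ (j + 1) - tt s'.2 ⟨p, hp⟩ (j + 1))) i := h2
    have h5 : ((((⟨p, hp⟩ : Q) : ℕ) : ℤ) ^ k p * u i) = (p : ℤ) ^ k p * u i := rfl
    rw [h5] at h4
    rw [h4]
    ring

end Pool.Agent.H446.AP10
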