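import Pool.Agent.H446.AP10.Box
import Pool.Agent.H446.AP10.Cnt
import Pool.Agent.H446.AP10.Pig
import Pool.Agent.H446.AP10.Nrm

/-!
# The auxiliary function
-/

set_option autoImplicit false

namespace Pool.Agent.H446.AP10

open Finset MvPolynomial
open Pool.Agent.H446.AP4 (pInt)
open Pool.Agent.H446.AP (Orb mm)

variable {m : ℕ}

/-- The prime `p` is good for `ω`. -/
def Gd (𝓕 : ℕ → Set (MvPolynomial (Fin m) ℤ)) (p : ℕ) (ω : Fin m → ℂ) : Prop :=
  ∃ _ : Fact p.Prime, (∀ i, ω i ∈ pInt p) ∧ ∀ F ∈ 𝓕 p, ∃ y ∈ pInt p, aeval ω F = p * y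

/-- Some function does not vanish modulo `p`. -/
def Wit (𝓕 : ℕ → Set (MvPolynomial (Fin m) ℤ)) (A : Dat m) (p : ℕ) : Prop :=
  ∃ (k : Type) (_ : Field k) (_ : CharP k p) (z : Fin m → k), A.On z ∧ aeval (z ∘ A.y) A.g ≠ 0 ∧
    ∃ F ∈ 𝓕 p, aeval z F ≠ 0

lemma Dat.ev_one (A : Dat m) {k : Type*} [CommRing k] (z : Fin m → k) : A.ev z (Pi.single A.o 1) = 1 := by
  classical
  unfold Dat.ev
  rw [Finset.sum_eq_single A.o]
  · rw [Pi.single_eq_same, map_one, one_mul, A.ho]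
    unfold mo
    simp
  · intro l _ hl
    rw [Pi.single_eq_of_ne hl, map_zero, zero_mul]
  · intro h; exact absurd (mem_univ _) h

/-- The powers of a function. -/
lemma exists_seq (A : Dat m) {C : ℕ} (hg : DL C A.g) (hT : ∀ i j l, DL C (A.T i j l)) {N : ℕ}
    (F : MvPolynomial (Fin m) ℤ) (hF : F.totalDegree ≤ N) :
    ∃ w : ℕ → Fin A.n → MvPolynomial (Fin A.d) ℤ, (∀ j l, DL (j * (C * N)) (w j l)) ∧
      ∀ (k : Type) [CommRing k] (z : Fin m → k), A.On z → ∀ j,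
        A.ev z (w j) = (aeval (z ∘ A.y) A.g ^ N * aeval z F) ^ j := by
  classical
  obtain ⟨Φ, h1, h2⟩ := A.exists_op hg hT F hF
  refine ⟨fun j => Φ^[j] (Pi.single A.o 1), fun j => ?_, fun k _ z hz j => ?_⟩
  · induction j with
    | zero =>
      intro l
      show DL (0 * (C * N)) ((Pi.single A.o 1 : Fin A.n → MvPolynomial (Fin A.d) ℤ) l)
      rw [zero_mul]
      by_cases h : l = A.o
      · subst h
        rw [Pi.single_eq_same]
        exact DL.C 1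
      · rw [Pi.single_eq_of_ne h]
        exact DL.zero
    | succ j ih =>
      intro l
      have h3 := h1 _ _ ih l
      beta_reduce
      rw [Function.iterate_succ_apply']
      have h4 : (j + 1) * (C * N) = C * N + j * (C * N) := by ring
      rw [h4]
      exact h3
  · induction j with
    | zero =>
      rw [pow_zero]
      exact A.ev_one z
    | succ j ih =>
      beta_reduce at ih ⊢
      rw [Function.iterate_succ_apply', h2 k z hz, ih, pow_succ]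
      ring

lemma aeval_mem {σ : Type*} (S : Subring ℂ) {z : σ → ℂ} (hz : ∀ i, z i ∈ S) (f : MvPolynomial σ ℤ) :
    aeval z f ∈ S := by
  induction f using MvPolynomial.induction_on with
  | C a =>
    rw [aeval_C, eq_intCast]
    exact intCast_mem _ _
  | add f g hf hg =>
    rw [map_add]
    exact S.add_mem hf hg
  | mul_X f i hf =>
    rw [map_mul, aeval_X]
    exact S.mul_mem hf (hz i)

lemma mo_mem (S : Subring ℂ) {z : Fin m → ℂ} (hz : ∀ i, z i ∈ S) (a : Fin m →₀ ℕ) : mo z a ∈ S :=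
  S.prod_mem fun i _ => S.pow_mem (hz i) _

lemma EV_mem (A : Dat m) (L : ℕ) (S : Subring ℂ) {z : Fin m → ℂ} (hz : ∀ i, z i ∈ S)
    (b : Fin A.n × (Fin A.d → Fin L) → ℤ) : EV A L z b ∈ S := by
  rw [EV_apply]
  exact S.sum_mem fun l _ => S.mul_mem (aeval_mem S (fun i => hz _) _) (mo_mem S hz _)

lemma ne_of_ev {d n p : ℕ} {k : Type} [Field k] [CharP k p] (z : Fin d → k) (e : Fin n → k)
    (w : Fin n → MvPolynomial (Fin d) ℤ) (h : ∑ l, aeval z (w l) * e l ≠ 0) :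
    ∃ l, MvPolynomial.map (Int.castRingHom (ZMod p)) (w l) ≠ 0 := by
  by_contra h1
  push Not at h1
  refine h (Finset.sum_eq_zero fun l _ => ?_)
  have h2 : aeval z (w l) = eval₂ (ZMod.castHom (dvd_refl p) k) z (MvPolynomial.map (Int.castRingHom (ZMod p)) (w l)) := by
    rw [eval₂_map, aeval_def]
    congr 1
    exact RingHom.ext_int _ _
  rw [h2, h1 l, eval₂_zero, zero_mul]

lemma wit_seq (A : Dat m) {C c : ℕ} (hg : DL C A.g) (hT : ∀ i j l, DL C (A.T i j l))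
    {𝓕 : ℕ → Set (MvPolynomial (Fin m) ℤ)} (h𝓕 : ∀ p, ∀ F ∈ 𝓕 p, F.totalDegree ≤ c * p) {p : ℕ}
    (hW : Wit 𝓕 A p) : ∃ w : ℕ → Fin A.n → MvPolynomial (Fin A.d) ℤ,
      (∀ j l, DL (j * (C * (c + 1) * p)) (w j l)) ∧
      (∀ j, ∃ l, MvPolynomial.map (Int.castRingHom (ZMod p)) (w j l) ≠ 0) ∧
      ∀ (_ : Fact p.Prime) (ω : Fin m → ℂ), Gd 𝓕 p ω → A.On ω → ∀ j, ∃ y ∈ pInt p, A.ev ω (w j) = (p : ℂ) ^ j * y := by
  obtain ⟨k, _, _, z, hz, hgz, F, hF, hFz⟩ := hW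
  obtain ⟨w, h1, h2⟩ := exists_seq A hg hT F (N := (c + 1) * p) (le_trans (h𝓕 p F hF) (Nat.mul_le_mul_right _ (by omega)))
  refine ⟨w, fun j l => ?_, fun j => ?_, fun _ ω hω hon j => ?_⟩
  · have h3 : j * (C * (c + 1) * p) = j * (C * ((c + 1) * p)) := by ring
    rw [h3]
    exact h1 j l
  · have h3 := h2 k z hz j
    exact ne_of_ev (z ∘ A.y) (fun l => mo z (A.ε l)) (w j) (by
      show A.ev z (w j) ≠ 0
      rw [h3]
      exact pow_ne_zero _ (mul_ne_zero (pow_ne_zero _ hgz) hFz))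
  · obtain ⟨_, hint, hall⟩ := hω
    obtain ⟨y, hy, hy'⟩ := hall F hF
    refine ⟨(aeval (ω ∘ A.y) A.g ^ ((c + 1) * p) * y) ^ j, (pInt p).pow_mem ((pInt p).mul_mem
      ((pInt p).pow_mem (aeval_mem _ (fun i => hint _) _) _) hy) _, ?_⟩
    rw [h2 ℂ ω hon j, hy']
    ring

lemma kk_le {m D C₁ p : ℕ} (hC : 0 < C₁) (hp : 0 < p) : (kk m D C₁ p : ℝ) ≤ (D + 1) / p := by
  have h1 : kk m D C₁ p ≤ (D + 1) / p := by
    unfold kk
    refine Nat.div_le_div_left ?_ hp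
    calc p = 1 * (1 * p) := by ring
      _ ≤ 2 * (m + 1) * (C₁ * p) := Nat.mul_le_mul (by omega) (Nat.mul_le_mul_right _ hC)
  calc (kk m D C₁ p : ℝ) ≤ (((D + 1) / p : ℕ) : ℝ) := by exact_mod_cast h1
    _ ≤ ((D + 1 : ℕ) : ℝ) / p := Nat.cast_div_le
    _ = _ := by push_cast; ring

lemma le_kk {m D C₁ p : ℕ} (hC : 0 < C₁) (hp : 0 < p) :
    ((D : ℝ) + 1) / (2 * (m + 1) * C₁) * (1 / p) - 1 ≤ kk m D C₁ p := by
  have h1 : D + 1 < 2 * (m + 1) * (C₁ * p) * (kk m D C₁ p + 1) := Nat.lt_mul_div_succ _ (by positivity)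
  have h2 : (D : ℝ) + 1 < 2 * (m + 1) * (C₁ * p) * (kk m D C₁ p + 1) := by exact_mod_cast h1
  have hC' : (0 : ℝ) < C₁ := by exact_mod_cast hC
  have hp' : (0 : ℝ) < p := by exact_mod_cast hp
  rw [← sub_nonneg]
  have h3 : (kk m D C₁ p : ℝ) - (((D : ℝ) + 1) / (2 * (m + 1) * C₁) * (1 / p) - 1) =
      (2 * (m + 1) * (C₁ * p) * (kk m D C₁ p + 1) - (D + 1)) / (2 * (m + 1) * C₁ * p) := by
    field_simp
    ring
  rw [h3]
  exact div_nonneg (by linarith) (by positivity)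

/-- **The step.** -/
theorem step (A : Dat m) {c : ℕ} {𝓕 : ℕ → Set (MvPolynomial (Fin m) ℤ)}
    (h𝓕 : ∀ p, ∀ F ∈ 𝓕 p, F.totalDegree ≤ c * p) : ∃ T₀ : ℝ, ∀ H M : ℝ, 0 ≤ H → 0 ≤ M → ∀ Q : Finset ℕ,
      (∀ p ∈ Q, p.Prime ∧ Wit 𝓕 A p) → T₀ * (H + M + 1) < ∑ p ∈ Q, Real.log p / p →
    ∃ (L : ℕ) (b : Fin A.n × (Fin A.d → Fin L) → ℤ), b ≠ 0 ∧ ∀ (ω : Fin m → ℂ) (P : Fin m → Polynomial ℤ),
      (∀ i, Orb (P i) ∧ Real.log (mm (P i)) ≤ (P i).natDegree * H ∧ Polynomial.aeval (ω i) (P i) = 0) →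
      (∀ Q : Finset ℕ, (∀ p ∈ Q, p.Prime ∧ ¬ Gd 𝓕 p ω) → ∑ p ∈ Q, Real.log p / p ≤ M) → A.On ω →
        aeval ω (Rb A b) = 0 := by
  classical
  obtain ⟨C, hC1, hg, hT⟩ := A.exists_bound
  set C₁ := C * (c + 1) with hC₁
  have hC₁0 : 0 < C₁ := by positivity
  have hC₁0' : (0 : ℝ) < C₁ := by exact_mod_cast hC₁0
  have hn : 0 < A.n := A.o.pos
  have hn' : (0 : ℝ) < A.n := by exact_mod_cast hn
  have hdm : A.d ≤ m := by
    have := Fintype.card_le_of_injective A.y A.hy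
    rwa [Fintype.card_fin, Fintype.card_fin] at this
  set E := ∑ l, ∑ i, A.ε l i with hEdef
  have hE : ∀ l i, A.ε l i ≤ E := by
    intro l i
    have h1 : A.ε l i ≤ ∑ i, A.ε l i := Finset.single_le_sum (f := fun i => A.ε l i) (fun _ _ => Nat.zero_le _) (mem_univ i)
    have h2 : ∑ i, A.ε l i ≤ E :=
      Finset.single_le_sum (f := fun l => ∑ i, A.ε l i) (fun _ _ => Nat.zero_le _) (mem_univ l)
    omega
  refine ⟨2 * A.n * (2 * (m + 1) * C₁) * (m + 1), fun H M hH hM Q hQ hQT₀ => ?_⟩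
  set T : ℝ := 2 * A.n * (2 * (m + 1) * C₁) * (m * |H| + |M| + 1) with hTdef
  have hQT : T < ∑ p ∈ Q, Real.log p / p := by
    refine lt_of_le_of_lt ?_ hQT₀
    rw [hTdef, abs_of_nonneg hH, abs_of_nonneg hM, mul_assoc (2 * (A.n : ℝ) * (2 * (m + 1) * C₁)) (m + 1)]
    refine mul_le_mul_of_nonneg_left ?_ (by positivity)
    have h1 : (0 : ℝ) ≤ m := Nat.cast_nonneg m
    nlinarith [mul_nonneg h1 hM]
  have hQp : ∀ p ∈ Q, p.Prime := fun p hp => (hQ p hp).1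
  set W := ∑ p ∈ Q, Real.log p with hW
  have hlog : ∀ p ∈ Q, 0 ≤ Real.log p := fun p hp => Real.log_nonneg (by exact_mod_cast (hQp p hp).one_lt.le)
  have hW0 : 0 ≤ W := Finset.sum_nonneg hlog
  obtain ⟨D, hD⟩ := exists_D A.n A.d (E * (m * |H|) + W)
  have hw : ∀ p ∈ Q, ∃ w : ℕ → Fin A.n → MvPolynomial (Fin A.d) ℤ,
      (∀ j l, DL (j * (C₁ * p)) (w j l)) ∧
      (∀ j, ∃ l, MvPolynomial.map (Int.castRingHom (ZMod p)) (w j l) ≠ 0) ∧
      ∀ (_ : Fact p.Prime) (ω : Fin m → ℂ), Gd 𝓕 p ω → A.On ω → ∀ j, ∃ y ∈ pInt p, A.ev ω (w j) = (p : ℂ) ^ j * y :=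
    fun p hp => wit_seq A hg hT h𝓕 (hQ p hp).2
  choose! w hw1 hw2 hw3 using hw
  have hDL : ∀ p ∈ Q, ∀ j (h : (Fin A.d → Fin (D + 1 - j * (C₁ * p))) → ℤ) l, DL D (pol h * w p j l) := by
    intro p hp j h l i
    by_cases hL : D + 1 - j * (C₁ * p) = 0
    · have h1 : pol h = 0 := by
        unfold pol
        refine Finset.sum_eq_zero fun a _ => ?_
        have := (a i).2
        omega
      rw [h1, zero_mul]
      exact DL.zero i
    · have h1 : DL (D - j * (C₁ * p)) (pol h) := DL_pol h fun _ _ => by omega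
      have h2 := (h1.mul (hw1 p hp j l)) i
      omega
  have hcard : Fintype.card (Fin A.n × (Fin A.d → Fin (D + 1))) = A.n * (D + 1) ^ A.d := by
    rw [Fintype.card_prod, Fintype.card_fin, Fintype.card_fun, Fintype.card_fin, Fintype.card_fin]
  have hB := card_ineq Q hQp (n := A.n) (d := A.d) (m := m) (D := D) (C₁ := C₁) hn hdm
  set Λ := Lam Q A.n m D C₁ with hΛ
  obtain ⟨b, hb0, hbB, hbp⟩ := pigeon (ι := Fin A.n × (Fin A.d → Fin (D + 1))) Q (fun p hp => (hQp p hp).pos)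
    (kk m D C₁) (fun p j => Fin A.d → Fin (D + 1 - j * (C₁ * p))) (fun p j => mulBox (w p j))
    (fun p hp j h h0 => mulBox_inj (hQp p hp) (w p j) (hw2 p hp j) h (hDL p hp j h) h0) ⌊Real.exp Λ⌋₊ (by
      rw [hcard]
      have h1 : ∀ p ∈ Q, (∑ j ∈ range (kk m D C₁ p), Fintype.card (Fin A.d → Fin (D + 1 - (j + 1) * (C₁ * p)))) =
          ∑ j ∈ range (kk m D C₁ p), (D + 1 - (j + 1) * (C₁ * p)) ^ A.d := fun p _ =>
        Finset.sum_congr rfl fun j _ => by rw [Fintype.card_fun, Fintype.card_fin, Fintype.card_fin]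
      refine lt_of_lt_of_eq hB ?_
      congr 1
      exact Finset.prod_congr rfl fun p hp => by rw [h1 p hp])
  refine ⟨D + 1, b, hb0, fun ω P hP hbad hon => ?_⟩
  by_contra hne
  have hD1 : (0 : ℝ) < (D : ℝ) + 1 := by positivity
  have h1 := nrmC hP (Rb A b) (D := D + E) (fun a ha i => by
      obtain ⟨t, rfl⟩ := support_Rb A b ha
      exact expo_le A hE t i) hne (A := A.n * ((D : ℝ) + 1) ^ A.d * Real.exp Λ) (by
      refine (sum_coeff_Rb A b hbB).trans ?_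
      push_cast
      refine mul_le_mul_of_nonneg_left (Nat.floor_le (Real.exp_pos _).le) (by positivity))
    (Q.filter fun p => Gd 𝓕 p ω) (kk m D C₁) (by
      intro p hp
      rw [mem_filter] at hp
      obtain ⟨hp, hGd⟩ := hp
      have hfact : Fact p.Prime := ⟨hQp p hp⟩
      refine ⟨hfact, ?_⟩
      obtain ⟨h, u, hbu⟩ := hbp p hp
      choose y hy hy' using hw3 p hp hfact ω hGd hon
      obtain ⟨_, hint, -⟩ := hGd
      refine ⟨∑ j ∈ range (kk m D C₁ p), aeval (ω ∘ A.y) (pol (h (j + 1))) * y (j + 1) + EV A (D + 1) ω u,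
        (pInt p).add_mem ((pInt p).sum_mem fun j _ => (pInt p).mul_mem (aeval_mem _ (fun i => hint _) _) (hy _))
          (EV_mem A _ _ hint u), ?_⟩
      rw [aeval_Rb, hbu, map_add, map_sum, map_zsmul, mul_add, Finset.mul_sum]
      congr 1
      · refine Finset.sum_congr rfl fun j hj => ?_
        rw [mem_range] at hj
        rw [map_zsmul, EV_mulBox A ω _ _ (hDL p hp (j + 1) (h (j + 1))), hy' (j + 1), zsmul_eq_mul]
        push_cast
        have h2 : (p : ℂ) ^ kk m D C₁ p = (p : ℂ) ^ (kk m D C₁ p - (j + 1)) * (p : ℂ) ^ (j + 1) := by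
          rw [← pow_add]
          congr 1
          omega
        rw [h2]
        ring
      · rw [zsmul_eq_mul]
        push_cast
        ring)
  -- the final computation
  have h2 : Real.log (A.n * ((D : ℝ) + 1) ^ A.d * Real.exp Λ) = Real.log A.n + A.d * Real.log ((D : ℝ) + 1) + Λ := by
    rw [Real.log_mul (by positivity) (by positivity), Real.log_mul (by positivity) (by positivity), Real.log_pow,
      Real.log_exp]
  rw [h2, Fintype.card_fin] at h1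
  set SQ := ∑ p ∈ Q, (kk m D C₁ p : ℝ) * Real.log p with hSQ
  have h3 : ∑ p ∈ Q.filter (fun p => Gd 𝓕 p ω), (kk m D C₁ p : ℝ) * Real.log p +
      ∑ p ∈ Q.filter (fun p => ¬ Gd 𝓕 p ω), (kk m D C₁ p : ℝ) * Real.log p = SQ :=
    Finset.sum_filter_add_sum_filter_not _ _ _
  have h4 : ∑ p ∈ Q.filter (fun p => ¬ Gd 𝓕 p ω), (kk m D C₁ p : ℝ) * Real.log p ≤ (D + 1) * |M| := by
    have h5 := hbad (Q.filter fun p => ¬ Gd 𝓕 p ω) fun p hp => by
      rw [mem_filter] at hp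
      exact ⟨hQp p hp.1, hp.2⟩
    calc ∑ p ∈ Q.filter (fun p => ¬ Gd 𝓕 p ω), (kk m D C₁ p : ℝ) * Real.log p ≤
        ∑ p ∈ Q.filter (fun p => ¬ Gd 𝓕 p ω), ((D : ℝ) + 1) * (Real.log p / p) := by
          refine Finset.sum_le_sum fun p hp => ?_
          rw [mem_filter] at hp
          have h6 := mul_le_mul_of_nonneg_right (kk_le (m := m) (D := D) hC₁0 (hQp p hp.1).pos) (hlog p hp.1)
          refine h6.trans (le_of_eq ?_)
          ring
      _ = (D + 1) * ∑ p ∈ Q.filter (fun p => ¬ Gd 𝓕 p ω), Real.log p / p := by rw [Finset.mul_sum]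
      _ ≤ (D + 1) * |M| := mul_le_mul_of_nonneg_left (h5.trans (le_abs_self M)) hD1.le
  have h5 : (D + 1) * (2 * A.n * (m * |H| + |M| + 1)) - W ≤ SQ := by
    have h6 : ((D : ℝ) + 1) / (2 * (m + 1) * C₁) * ∑ p ∈ Q, Real.log p / p - W ≤ SQ := by
      rw [hSQ, hW, Finset.mul_sum, ← Finset.sum_sub_distrib]
      refine Finset.sum_le_sum fun p hp => ?_
      have h7 := mul_le_mul_of_nonneg_right (le_kk (m := m) (D := D) hC₁0 (hQp p hp).pos) (hlog p hp)
      refine le_trans (le_of_eq ?_) h7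
      ring
    have h7 : ((D : ℝ) + 1) / (2 * (m + 1) * C₁) * T = (D + 1) * (2 * A.n * (m * |H| + |M| + 1)) := by
      rw [hTdef]
      field_simp
    have h8 : ((D : ℝ) + 1) / (2 * (m + 1) * C₁) * T ≤ ((D : ℝ) + 1) / (2 * (m + 1) * C₁) * ∑ p ∈ Q, Real.log p / p :=
      mul_le_mul_of_nonneg_left hQT.le (by positivity)
    linarith
  have h6 : Λ = SQ - 1 / (2 * A.n) * SQ := by
    rw [hΛ, Lam]
    ring
  have h7 : (D + 1) * (m * |H| + |M| + 1) - W ≤ 1 / (2 * A.n) * SQ := by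
    have h8 : 1 / (2 * (A.n : ℝ)) * ((D + 1) * (2 * A.n * (m * |H| + |M| + 1)) - W) ≤ 1 / (2 * A.n) * SQ :=
      mul_le_mul_of_nonneg_left h5 (by positivity)
    have h9 : 1 / (2 * (A.n : ℝ)) * ((D + 1) * (2 * A.n * (m * |H| + |M| + 1)) - W) =
        (D + 1) * (m * |H| + |M| + 1) - 1 / (2 * A.n) * W := by
      field_simp
    have h10 : 1 / (2 * (A.n : ℝ)) * W ≤ W := by
      have h11 : (1 : ℝ) ≤ A.n := by exact_mod_cast hn
      have h12 : 1 / (2 * (A.n : ℝ)) ≤ 1 := by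
        rw [div_le_one (by positivity)]
        linarith
      calc 1 / (2 * (A.n : ℝ)) * W ≤ 1 * W := mul_le_mul_of_nonneg_right h12 hW0
        _ = W := one_mul W
    linarith
  have h8 : (((D + E : ℕ) : ℝ)) * (m * H) ≤ (D + 1) * (m * |H|) + E * (m * |H|) := by
    have h9 : (m : ℝ) * H ≤ m * |H| := mul_le_mul_of_nonneg_left (le_abs_self H) (Nat.cast_nonneg m)
    have h10 : 0 ≤ (m : ℝ) * |H| := by positivity
    calc (((D + E : ℕ) : ℝ)) * (m * H) ≤ ((D + E : ℕ) : ℝ) * (m * |H|) := mul_le_mul_of_nonneg_left h9 (Nat.cast_nonneg _)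
      _ = D * (m * |H|) + E * (m * |H|) := by push_cast; ring
      _ ≤ _ := by nlinarith
  have h9 : ((D : ℝ) + 1) * (m * |H| + |M| + 1) = (D + 1) * (m * |H|) + (D + 1) * |M| + (D + 1) := by ring
  linarith

end Pool.Agent.H446.AP10
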